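import Pool.Agent.H96.W.Merge

set_option autoImplicit false

/-! # contraction of an edge -/

namespace Pool.H96.W

open Equiv Relation

variable {D : Type} [DecidableEq D]

theorem conn_contract [Finite D] {σ α : Perm D} (hinv : ∀ x, α (α x) = x) {a b : D}
    (hab : α a = b) (hs : ¬ σ.SameCycle a b) (x y : D) :
    Conn (σ * swap a b) (swap a b * α) x y ↔ Conn σ α x y := by
  have hba : α b = a := by rw [← hab, hinv]
  have hsc : Conn (σ * swap a b) (swap a b * α) a b := Conn.of_sameCycle (sameCycle_mul_swap hs)
  have hc : Conn σ α a b := by
    have := Conn.of_alpha (σ := σ) (α := α) a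
    rwa [hab] at this
  constructor
  · refine Conn.le ?_ ?_
    · intro u
      by_cases hua : u = a
      · subst hua
        rw [Perm.mul_apply, swap_apply_left]
        exact hc.trans (Conn.of_sigma b)
      · by_cases hub : u = b
        · subst hub
          rw [Perm.mul_apply, swap_apply_right]
          exact hc.symm.trans (Conn.of_sigma a)
        · rw [swap_apply_ne σ hua hub]; exact Conn.of_sigma u
    · intro u
      rw [Perm.mul_apply]
      by_cases hua : α u = a
      · rw [hua, swap_apply_left]
        have : u = b := by rw [← hinv u, hua, hab]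
        rw [this]; exact Conn.refl _ _ _
      · by_cases hub : α u = b
        · rw [hub, swap_apply_right]
          have : u = a := by rw [← hinv u, hub, hba]
          rw [this]; exact Conn.refl _ _ _
        · rw [swap_apply_of_ne_of_ne hua hub]; exact Conn.of_alpha u
  · refine Conn.le ?_ ?_
    · intro u
      by_cases hua : u = a
      · subst hua
        have h1 : (σ * swap u b) b = σ u := by rw [Perm.mul_apply, swap_apply_right]
        rw [← h1]
        exact hsc.trans (Conn.of_sigma b)
      · by_cases hub : u = b
        · subst hub
          have h1 : (σ * swap a u) a = σ u := by rw [Perm.mul_apply, swap_apply_left]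
          rw [← h1]
          exact hsc.symm.trans (Conn.of_sigma a)
        · rw [← swap_apply_ne σ hua hub]; exact Conn.of_sigma u
    · intro u
      by_cases hua : u = a
      · rw [hua, hab]; exact hsc
      · by_cases hub : u = b
        · rw [hub, hba]; exact hsc.symm
        · have h1 : α u ≠ a := fun h => hub (by rw [← hinv u, h, hab])
          have h2 : α u ≠ b := fun h => hua (by rw [← hinv u, h, hba])
          have h3 : (swap a b * α) u = α u := by
            rw [Perm.mul_apply, swap_apply_of_ne_of_ne h1 h2]
          rw [← h3]; exact Conn.of_alpha u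

/-- contracting an edge between two different vertices does not change the genus -/
theorem Def_contract [Finite D] {σ α : Perm D} (hinv : ∀ x, α (α x) = x) {a b : D}
    (hab : α a = b) (hs : ¬ σ.SameCycle a b) : Def (σ * swap a b) (swap a b * α) = Def σ α := by
  have hne : a ≠ b := fun e => hs (e ▸ Perm.SameCycle.refl _ _)
  have hba : α b = a := by rw [← hab, hinv]
  have hcomm : swap a b * α = α * swap a b := by
    have h1 : α⁻¹ = α := by
      ext x
      rw [Perm.inv_eq_iff_eq]
      exact (hinv x).symm
    rw [swap_mul_eq_mul_swap, h1, hab, hba, swap_comm]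
  have h1 : cyc σ = cyc (σ * swap a b) + 1 := cyc_mul_swap_of_not hs
  have h2 : cyc (swap a b * α) = cyc α + 1 := by
    rw [hcomm]
    refine cyc_mul_swap_of_same hne ?_
    refine ⟨1, ?_⟩
    rw [zpow_one]; exact hab
  have h3 : σ * swap a b * (swap a b * α) = σ * α := by
    rw [← mul_assoc, mul_assoc σ, swap_mul_self, mul_one]
  have h4 : comp (σ * swap a b) (swap a b * α) = comp σ α :=
    ncl_congr (conn_contract hinv hab hs)
  unfold Def
  rw [h1, h2, h3, h4]
  push_cast
  ring

end Pool.H96.W
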