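import Pool.Agent.H96.W.Cyc

set_option autoImplicit false

namespace Pool.H96.W

open Equiv Relation

variable {D : Type}

/-! ### connectivity -/

theorem Conn.refl (σ α : Perm D) (a : D) : Conn σ α a a := EqvGen.refl _

theorem Conn.symm {σ α : Perm D} {a b : D} (h : Conn σ α a b) : Conn σ α b a :=
  EqvGen.symm _ _ h

theorem Conn.trans {σ α : Perm D} {a b c : D} (h : Conn σ α a b) (h' : Conn σ α b c) :
    Conn σ α a c := EqvGen.trans _ _ _ h h'

theorem Conn.of_sigma {σ α : Perm D} (a : D) : Conn σ α a (σ a) := EqvGen.rel _ _ (Or.inl rfl)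

theorem Conn.of_alpha {σ α : Perm D} (a : D) : Conn σ α a (α a) := EqvGen.rel _ _ (Or.inr rfl)

theorem conn_equivalence (σ α : Perm D) : Equivalence (Conn σ α) := EqvGen.is_equivalence _

theorem Conn.of_sameCycle {σ α : Perm D} {a b : D} (h : σ.SameCycle a b) : Conn σ α a b :=
  eqvGen_le (conn_equivalence σ α) (fun x y (hxy : σ x = y) => hxy ▸ Conn.of_sigma x)
    (eqvGen_Gr_iff.2 h)

theorem Conn.of_face {σ α : Perm D} {a b : D} (h : (σ * α).SameCycle a b) : Conn σ α a b :=
  eqvGen_le (conn_equivalence σ α)
    (fun x y (hxy : (σ * α) x = y) => hxy ▸ (Conn.of_alpha x).trans (Conn.of_sigma (α x)))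
    (eqvGen_Gr_iff.2 h)

theorem Conn.le {σ α σ' α' : Perm D} (h1 : ∀ x, Conn σ' α' x (σ x)) (h2 : ∀ x, Conn σ' α' x (α x))
    {a b : D} (h : Conn σ α a b) : Conn σ' α' a b := by
  refine eqvGen_le (conn_equivalence σ' α') ?_ h
  rintro x y (rfl | rfl)
  · exact h1 x
  · exact h2 x

variable [DecidableEq D]

/-! ### the step law: join two dead darts by an edge -/

theorem conn_step {σ α : Perm D} {a b : D} (ha : α a = a) (hb : α b = b) (x y : D) :
    Conn σ (α * swap a b) x y ↔ EqvGen (addP (Gen σ α) a b) x y := by
  constructor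
  · intro h
    refine eqvGen_le (EqvGen.is_equivalence _) ?_ h
    rintro u v (huv | huv)
    · exact EqvGen.rel _ _ (Or.inl (Or.inl huv))
    · rw [Perm.mul_apply] at huv
      by_cases hua : u = a
      · subst hua
        rw [swap_apply_left, hb] at huv
        subst huv
        exact EqvGen.rel _ _ (Or.inr ⟨rfl, rfl⟩)
      · by_cases hub : u = b
        · subst hub
          rw [swap_apply_right, ha] at huv
          subst huv
          exact EqvGen.symm _ _ (EqvGen.rel _ _ (Or.inr ⟨rfl, rfl⟩))
        · rw [swap_apply_of_ne_of_ne hua hub] at huv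
          exact EqvGen.rel _ _ (Or.inl (Or.inr huv))
  · intro h
    refine eqvGen_le (conn_equivalence _ _) ?_ h
    rintro u v ((huv | huv) | ⟨rfl, rfl⟩)
    · subst huv; exact Conn.of_sigma u
    · by_cases hua : u = a
      · subst hua; rw [ha] at huv; subst huv; exact Conn.refl _ _ _
      · by_cases hub : u = b
        · subst hub; rw [hb] at huv; subst huv; exact Conn.refl _ _ _
        · have : (α * swap a b) u = v := by rw [swap_apply_ne α hua hub, huv]
          rw [← this]; exact Conn.of_alpha u
    · have : (α * swap u v) u = v := by simp [hb]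
      conv_rhs => rw [← this]
      exact Conn.of_alpha u

theorem comp_step {σ α : Perm D} {a b : D} (ha : α a = a) (hb : α b = b) :
    comp σ (α * swap a b) = ncl (addP (Gen σ α) a b) := ncl_congr (conn_step ha hb)

theorem not_sameCycle_of_fixed {α : Perm D} {a b : D} (hab : a ≠ b) (ha : α a = a) :
    ¬ α.SameCycle a b := fun h => hab (h.eq_of_left ha)

/-- same face: the genus does not change -/
theorem Def_step_face [Finite D] {σ α : Perm D} {a b : D} (hab : a ≠ b) (ha : α a = a)
    (hb : α b = b) (h : (σ * α).SameCycle a b) : Def σ (α * swap a b) = Def σ α := by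
  have h1 : cyc α = cyc (α * swap a b) + 1 := cyc_mul_swap_of_not (not_sameCycle_of_fixed hab ha)
  have h2 : cyc (σ * (α * swap a b)) = cyc (σ * α) + 1 := by
    rw [← mul_assoc]; exact cyc_mul_swap_of_same hab h
  have h3 : comp σ (α * swap a b) = comp σ α := by
    rw [comp_step ha hb]; exact ncl_addP_of_eqv (Conn.of_face h)
  unfold Def
  rw [h1, h2, h3]
  push_cast
  ring

/-- different components: the genus does not change -/
theorem Def_step_comp [Finite D] {σ α : Perm D} {a b : D} (ha : α a = a)
    (hb : α b = b) (h : ¬ Conn σ α a b) : Def σ (α * swap a b) = Def σ α := by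
  have hab : a ≠ b := fun e => h (e ▸ Conn.refl _ _ _)
  have h1 : cyc α = cyc (α * swap a b) + 1 := cyc_mul_swap_of_not (not_sameCycle_of_fixed hab ha)
  have h2 : cyc (σ * α) = cyc (σ * (α * swap a b)) + 1 := by
    rw [← mul_assoc]; exact cyc_mul_swap_of_not (fun h' => h (Conn.of_face h'))
  have h3 : comp σ α = comp σ (α * swap a b) + 1 := by
    rw [comp_step ha hb]; exact ncl_addP_of_not h
  unfold Def
  rw [h1, h2, h3]
  push_cast
  ring

/-- different faces of one component: the genus goes up -/
theorem Def_step_up [Finite D] {σ α : Perm D} {a b : D} (ha : α a = a)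
    (hb : α b = b) (h : ¬ (σ * α).SameCycle a b) (h' : Conn σ α a b) :
    Def σ (α * swap a b) = Def σ α + 2 := by
  have hab : a ≠ b := fun e => h (e ▸ Perm.SameCycle.refl _ _)
  have h1 : cyc α = cyc (α * swap a b) + 1 := cyc_mul_swap_of_not (not_sameCycle_of_fixed hab ha)
  have h2 : cyc (σ * α) = cyc (σ * (α * swap a b)) + 1 := by
    rw [← mul_assoc]; exact cyc_mul_swap_of_not h
  have h3 : comp σ (α * swap a b) = comp σ α := by
    rw [comp_step ha hb]; exact ncl_addP_of_eqv h'
  unfold Def
  rw [h1, h2, h3]
  push_cast
  ring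

theorem Def_step_le [Finite D] {σ α : Perm D} {a b : D} (hab : a ≠ b) (ha : α a = a)
    (hb : α b = b) : Def σ α ≤ Def σ (α * swap a b) := by
  by_cases h : (σ * α).SameCycle a b
  · exact (Def_step_face hab ha hb h).ge
  · by_cases h' : Conn σ α a b
    · rw [Def_step_up ha hb h h']; omega
    · exact (Def_step_comp ha hb h').ge

theorem Def_one [Finite D] (σ : Perm D) : Def σ 1 = 0 := by
  have h1 : comp σ 1 = cyc σ := by
    refine ncl_congr fun x y => ?_
    constructor
    · intro h
      refine eqvGen_le (EqvGen.is_equivalence _) ?_ h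
      rintro u v (huv | huv)
      · exact EqvGen.rel _ _ huv
      · have : u = v := huv
        subst this; exact EqvGen.refl _
    · intro h
      exact eqvGen_mono' (fun u v huv => EqvGen.rel _ _ (Or.inl huv)) h
  unfold Def
  rw [h1, cyc_one, mul_one]
  ring

/-- `α₀` is obtained from the involution `α` by killing some edges -/
def Sub (α₀ α : Perm D) : Prop := ∀ x, α₀ x = x ∨ α₀ x = α x

/-- killing edges does not increase the genus -/
theorem Def_mono [Finite D] {σ : Perm D} : ∀ {α₀ α : Perm D}, (∀ x, α (α x) = x) →
    (∀ x, α₀ (α₀ x) = x) → Sub α₀ α → Def σ α₀ ≤ Def σ α := by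
  classical
  have : Fintype D := Fintype.ofFinite D
  -- induction on the number of darts where they differ
  suffices H : ∀ n : ℕ, ∀ α₀ α : Perm D, (∀ x, α (α x) = x) → (∀ x, α₀ (α₀ x) = x) → Sub α₀ α →
      (Finset.univ.filter (fun x => α₀ x ≠ α x)).card = n → Def σ α₀ ≤ Def σ α by
    intro α₀ α h1 h2 h3
    exact H _ α₀ α h1 h2 h3 rfl
  intro n
  induction n using Nat.strong_induction_on with
  | _ n ih =>
    intro α₀ α h1 h2 h3 hn
    by_cases hall : ∀ x, α₀ x = α x
    · have : α₀ = α := Equiv.ext hall
      rw [this]
    · push Not at hall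
      obtain ⟨a, ha⟩ := hall
      have ha0 : α₀ a = a := (h3 a).resolve_right ha
      set b := α a with hb
      have hab : a ≠ b := fun e => ha (by rw [ha0, ← e])
      have hαb : α b = a := h1 a
      have hb0 : α₀ b = b := by
        rcases h3 b with h | h
        · exact h
        · exfalso
          have : α₀ b = a := by rw [h, hαb]
          have h5 : α₀ a = b := by rw [← this, h2]
          exact hab (by rw [← h5, ha0])
      have hstep : Def σ α₀ ≤ Def σ (α₀ * swap a b) := Def_step_le hab ha0 hb0
      refine hstep.trans (ih _ ?_ (α₀ * swap a b) α h1 ?_ ?_ rfl)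
      · rw [← hn]
        refine Finset.card_lt_card ⟨?_, ?_⟩
        · intro x hx
          rw [Finset.mem_filter] at hx ⊢
          refine ⟨Finset.mem_univ _, ?_⟩
          by_cases hxa : x = a
          · subst hxa; exact ha
          · by_cases hxb : x = b
            · subst hxb
              intro _
              exact hx.2 (by rw [Perm.mul_apply, swap_apply_right, ha0, hαb])
            · have := hx.2
              rwa [swap_apply_ne α₀ hxa hxb] at this
        · intro hsub
          have : a ∈ Finset.univ.filter (fun x => α₀ x ≠ α x) := by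
            rw [Finset.mem_filter]; exact ⟨Finset.mem_univ _, ha⟩
          have := hsub this
          rw [Finset.mem_filter] at this
          exact this.2 (by rw [Perm.mul_apply, swap_apply_left, hb0])
      · intro x
        by_cases hxa : x = a
        · subst hxa
          rw [Perm.mul_apply (α₀) (swap _ _) x, swap_apply_left, hb0, Perm.mul_apply,
            swap_apply_right, ha0]
        · by_cases hxb : x = b
          · subst hxb
            rw [Perm.mul_apply (α₀) (swap _ _) (α a), swap_apply_right, ha0, Perm.mul_apply,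
              swap_apply_left, hb0]
          · have hy : (α₀ * swap a b) x = α₀ x := swap_apply_ne α₀ hxa hxb
            have h6 : α₀ x ≠ a := fun e => hxa (by rw [← h2 x, e, ha0])
            have h7 : α₀ x ≠ b := fun e => hxb (by rw [← h2 x, e, hb0])
            rw [hy, swap_apply_ne α₀ h6 h7, h2]
      · intro x
        by_cases hxa : x = a
        · subst hxa
          right; rw [Perm.mul_apply, swap_apply_left, hb0]
        · by_cases hxb : x = b
          · subst hxb
            right; rw [Perm.mul_apply, swap_apply_right, ha0, hαb]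
          · rw [swap_apply_ne α₀ hxa hxb]
            exact h3 x

theorem Def_nonneg [Finite D] {σ α : Perm D} (h : ∀ x, α (α x) = x) : 0 ≤ Def σ α := by
  rw [← Def_one σ]
  exact Def_mono h (fun _ => rfl) (fun x => Or.inl rfl)

/-- planar maps: sub-involutions are planar -/
theorem Def_sub [Finite D] {σ α₀ α : Perm D} (h : ∀ x, α (α x) = x) (h0 : ∀ x, α₀ (α₀ x) = x)
    (hs : Sub α₀ α) (hD : Def σ α = 0) : Def σ α₀ = 0 :=
  le_antisymm (hD ▸ Def_mono h h0 hs) (Def_nonneg h0)

/-- in a planar map the two ends of an edge lie in one face of the map without this edge,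
as soon as they are connected there -/
theorem face_of_planar [Finite D] {σ α : Perm D} {a b : D} (ha : α a = a)
    (hb : α b = b) (hinv : ∀ x, α (α x) = x) (hD : Def σ (α * swap a b) = 0) (h' : Conn σ α a b) :
    (σ * α).SameCycle a b := by
  by_contra h
  have := Def_step_up ha hb h h'
  have := Def_nonneg (σ := σ) hinv
  omega

end Pool.H96.W
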