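import Pool.Agent.H96.W.Closure

set_option autoImplicit false

/-! # gluing at an edge -/

namespace Pool.H96.W

open Equiv Relation Pool.WG

theorem face_after_merge {D : Type} [Finite D] [DecidableEq D] {σ α : Perm D}
    (hinv : ∀ x, α (α x) = x) {d₁ d₂ a b : D} (hnot : ¬ Conn σ α d₁ d₂) (ha : σ a = α d₁)
    (hb : σ b = α d₂) (hne1 : a ≠ d₁) (hne2 : b ≠ d₂) :
    (σ * swap d₁ d₂ * α).SameCycle (α a) (α b) := by
  have c1 : Conn σ α a d₁ := by
    have := Conn.of_sigma (σ := σ) (α := α) a
    rw [ha] at this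
    exact this.trans (Conn.of_alpha d₁).symm
  have c2 : Conn σ α b d₂ := by
    have := Conn.of_sigma (σ := σ) (α := α) b
    rw [hb] at this
    exact this.trans (Conn.of_alpha d₂).symm
  have hne3 : a ≠ d₂ := fun h => hnot (by rw [← h]; exact c1.symm)
  have hne4 : b ≠ d₁ := fun h => hnot (by rw [← h]; exact c2)
  rw [face_swap hinv]
  have hsc : (σ * α * swap (α d₁) (α d₂)).SameCycle (α d₁) (α d₂) := by
    refine sameCycle_mul_swap fun h => hnot ?_
    exact (Conn.of_alpha d₁).trans ((Conn.of_face h).trans (Conn.of_alpha d₂).symm)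
  have k1 : (σ * α * swap (α d₁) (α d₂)) (α a) = α d₁ := by
    rw [swap_apply_ne _ (fun h => hne1 (α.injective h)) (fun h => hne3 (α.injective h)),
      Perm.mul_apply, hinv, ha]
  have k2 : (σ * α * swap (α d₁) (α d₂)) (α b) = α d₂ := by
    rw [swap_apply_ne _ (fun h => hne4 (α.injective h)) (fun h => hne2 (α.injective h)),
      Perm.mul_apply, hinv, hb]
  rw [← Perm.sameCycle_apply_left, k1, ← Perm.sameCycle_apply_right, k2]
  exact hsc

theorem pd_gl2 : PGl2 PD := by
  classical
  intro V _ G₁ G₂ u v huv1 huv2 hu h1 h2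
  obtain ⟨M₁, l1, e1⟩ := PD_live h1
  obtain ⟨M₂, l2, e2⟩ := PD_live h2
  have huv : u ≠ v := huv1.ne
  obtain ⟨d₁, -, hd1, hd1'⟩ := (e1 u v).1 huv1
  obtain ⟨d₂, -, hd2, hd2'⟩ := (e2 u v).1 huv2
  have hcom : ∀ (x : M₁.D) (y : M₂.D), M₁.vert x = M₂.vert y →
      (M₁.vert x = u ∧ M₂.vert y = u) ∨ (M₁.vert x = v ∧ M₂.vert y = v) := by
    intro x y hxy
    have : M₁.vert x = u ∨ M₁.vert x = v := by
      refine hu _ (M₁.vert (M₁.α x)) (M₂.vert (M₂.α y)) (LMap.live_adj e1 (l1 x)) ?_
      rw [hxy]; exact LMap.live_adj e2 (l2 y)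
    rcases this with h | h
    · exact Or.inl ⟨h, by rw [← hxy]; exact h⟩
    · exact Or.inr ⟨h, by rw [← hxy]; exact h⟩
  -- the first merge, at `u`
  let U := M₁.union M₂
  let q₁ : V ⊕ V → V ⊕ V := fun z => if z = Sum.inr u then Sum.inl u else z
  have q₁l : ∀ z, q₁ (Sum.inl z) = Sum.inl z := fun z => by simp [q₁]
  have q₁r : ∀ z, z ≠ u → q₁ (Sum.inr z) = Sum.inr z := fun z hz => by simp [q₁, hz]
  have q₁u : q₁ (Sum.inr u) = Sum.inl u := by simp [q₁]
  have hne1 : U.vert (Sum.inl d₁) ≠ U.vert (Sum.inr d₂) := by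
    change Sum.inl _ ≠ Sum.inr _
    simp
  have hq1 : ∀ x y, q₁ (U.vert x) = q₁ (U.vert y) ↔ (U.vert x = U.vert y ∨
      ((U.vert x = U.vert (Sum.inl d₁) ∨ U.vert x = U.vert (Sum.inr d₂)) ∧
        (U.vert y = U.vert (Sum.inl d₁) ∨ U.vert y = U.vert (Sum.inr d₂)))) := by
    intro x y
    have ea : U.vert (Sum.inl d₁) = Sum.inl u := congrArg Sum.inl hd1
    have eb : U.vert (Sum.inr d₂) = Sum.inr u := congrArg Sum.inr hd2
    rw [ea, eb]
    generalize U.vert x = z
    generalize U.vert y = z'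
    have key : ∀ z, q₁ z = Sum.inl u ↔ (z = Sum.inl u ∨ z = Sum.inr u) := by
      rintro (z | z)
      · rw [q₁l]; simp
      · by_cases hz : z = u
        · rw [hz, q₁u]; simp
        · rw [q₁r z hz]; simp [hz]
    have key2 : ∀ z, z ≠ Sum.inr u → q₁ z = z := by
      intro z hz; simp [q₁, hz]
    constructor
    · intro h
      by_cases hz : z = Sum.inr u
      · have : q₁ z = Sum.inl u := by rw [hz, q₁u]
        right
        exact ⟨(key z).1 this, (key z').1 (h ▸ this)⟩
      · by_cases hz' : z' = Sum.inr u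
        · have : q₁ z' = Sum.inl u := by rw [hz', q₁u]
          right
          exact ⟨(key z).1 (h ▸ this), (key z').1 this⟩
        · left; rw [key2 z hz, key2 z' hz'] at h; exact h
    · rintro (h | ⟨h, h'⟩)
      · rw [h]
      · rw [(key z).2 h, (key z').2 h']
  let U₁ := U.merge q₁ (Sum.inl d₁) (Sum.inr d₂) hne1 hq1 (Or.inl not_conn_sum)
  -- the second merge, at `v`
  let q₂ : V ⊕ V → V := Sum.elim id id
  let a : M₁.D := M₁.σ⁻¹ (M₁.α d₁)
  let b : M₂.D := M₂.σ⁻¹ (M₂.α d₂)
  have ha : M₁.vert a = v := by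
    rw [← hd1', ← M₁.vert_σ a]
    exact congrArg M₁.vert (M₁.σ.apply_symm_apply _)
  have hb : M₂.vert b = v := by
    rw [← hd2', ← M₂.vert_σ b]
    exact congrArg M₂.vert (M₂.σ.apply_symm_apply _)
  have ea2 : U₁.vert (Sum.inl a) = Sum.inl v := by
    change q₁ (Sum.inl (M₁.vert a)) = _
    rw [q₁l, ha]
  have eb2 : U₁.vert (Sum.inr b) = Sum.inr v := by
    change q₁ (Sum.inr (M₂.vert b)) = _
    rw [hb, q₁r v huv.symm]
  have hne2 : U₁.vert (Sum.inl a) ≠ U₁.vert (Sum.inr b) := by
    rw [ea2, eb2]; simp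
  have hq2 : ∀ x y, q₂ (U₁.vert x) = q₂ (U₁.vert y) ↔ (U₁.vert x = U₁.vert y ∨
      ((U₁.vert x = U₁.vert (Sum.inl a) ∨ U₁.vert x = U₁.vert (Sum.inr b)) ∧
        (U₁.vert y = U₁.vert (Sum.inl a) ∨ U₁.vert y = U₁.vert (Sum.inr b)))) := by
    have e1l : ∀ x : M₁.D, U₁.vert (Sum.inl x) = Sum.inl (M₁.vert x) := fun x => q₁l _
    have e1r : ∀ x : M₂.D, U₁.vert (Sum.inr x) = q₁ (Sum.inr (M₂.vert x)) := fun x => rfl
    have q2r : ∀ z, q₂ (q₁ (Sum.inr z)) = z := by
      intro z
      by_cases hz : z = u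
      · rw [hz, q₁u]; rfl
      · rw [q₁r z hz]; rfl
    rintro (x | x) (y | y)
    · rw [ea2, eb2, e1l, e1l]
      change M₁.vert x = M₁.vert y ↔ _
      simp only [Sum.inl.injEq, reduceCtorEq, or_false]
      constructor
      · exact Or.inl
      · rintro (h | ⟨h, h'⟩)
        · exact h
        · rw [h, h']
    · rw [ea2, eb2, e1l, e1r, q2r]
      change M₁.vert x = M₂.vert y ↔ _
      constructor
      · intro h
        rcases hcom x y h with ⟨h', h''⟩ | ⟨h', h''⟩
        · left; rw [h', h'', q₁u]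
        · right; rw [h', h'', q₁r v huv.symm]
          exact ⟨Or.inl rfl, Or.inr rfl⟩
      · intro h
        by_cases hz : M₂.vert y = u
        · rw [hz, q₁u] at h
          rcases h with h | ⟨h, h'⟩
          · rw [hz]; exact Sum.inl.inj h
          · exfalso
            rcases h' with h' | h'
            · exact huv (Sum.inl.inj h')
            · cases h'
        · rw [q₁r _ hz] at h
          rcases h with h | ⟨h, h'⟩
          · cases h
          · have k1 : M₁.vert x = v := by
              rcases h with h | h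
              · exact Sum.inl.inj h
              · cases h
            have k2 : M₂.vert y = v := by
              rcases h' with h' | h'
              · cases h'
              · exact Sum.inr.inj h'
            rw [k1, k2]
    · rw [ea2, eb2, e1l, e1r, q2r]
      change M₂.vert x = M₁.vert y ↔ _
      constructor
      · intro h
        rcases hcom y x h.symm with ⟨h', h''⟩ | ⟨h', h''⟩
        · left; rw [h', h'', q₁u]
        · right; rw [h', h'', q₁r v huv.symm]
          exact ⟨Or.inr rfl, Or.inl rfl⟩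
      · intro h
        by_cases hz : M₂.vert x = u
        · rw [hz, q₁u] at h
          rcases h with h | ⟨h, h'⟩
          · rw [hz]; exact Sum.inl.inj h
          · exfalso
            rcases h with h | h
            · exact huv (Sum.inl.inj h)
            · cases h
        · rw [q₁r _ hz] at h
          rcases h with h | ⟨h, h'⟩
          · cases h
          · have k1 : M₂.vert x = v := by
              rcases h with h | h
              · cases h
              · exact Sum.inr.inj h
            have k2 : M₁.vert y = v := by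
              rcases h' with h' | h'
              · exact Sum.inl.inj h'
              · cases h'
            rw [k1, k2]
    · rw [ea2, eb2, e1r, e1r, q2r, q2r]
      constructor
      · intro h; left; rw [h]
      · rintro (h | ⟨h, h'⟩)
        · have := congrArg q₂ h
          rwa [q2r, q2r] at this
        · have k : ∀ z, q₁ (Sum.inr z) = Sum.inl v ∨ q₁ (Sum.inr z) = Sum.inr v → z = v := by
            intro z hz
            rcases hz with hz | hz
            · have := congrArg q₂ hz
              rwa [q2r] at this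
            · have := congrArg q₂ hz
              rwa [q2r] at this
          rw [k _ h, k _ h']
  have hface : (U₁.σ * U₁.α).SameCycle (U₁.α (Sum.inl a)) (U₁.α (Sum.inr b)) := by
    refine @face_after_merge U.D _ _ U.σ U.α U.inv
      (Sum.inl d₁) (Sum.inr d₂) (Sum.inl a) (Sum.inr b) not_conn_sum ?_ ?_ ?_ ?_
    · exact congrArg Sum.inl (M₁.σ.apply_symm_apply _)
    · exact congrArg Sum.inr (M₂.σ.apply_symm_apply _)
    · intro h
      have h' : a = d₁ := Sum.inl.inj h
      have : v = u := by rw [← ha, h', hd1]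
      exact huv this.symm
    · intro h
      have h' : b = d₂ := Sum.inr.inj h
      have : v = u := by rw [← hb, h', hd2]
      exact huv this.symm
  refine ⟨U₁.merge q₂ (Sum.inl a) (Sum.inr b) hne2 hq2 (Or.inr hface), ?_⟩
  have q2l : ∀ z, q₂ (q₁ (Sum.inl z)) = z := by
    intro z; rw [q₁l]; rfl
  have q2r : ∀ z, q₂ (q₁ (Sum.inr z)) = z := by
    intro z
    by_cases hz : z = u
    · rw [hz, q₁u]; rfl
    · rw [q₁r z hz]; rfl
  intro p r
  rw [SimpleGraph.sup_adj, e1, e2]
  constructor
  · rintro (⟨d, h3, h4, h5⟩ | ⟨d, h3, h4, h5⟩)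
    · refine ⟨Sum.inl d, fun h => h3 (Sum.inl.inj h), ?_, ?_⟩
      · change q₂ (q₁ (Sum.inl (M₁.vert d))) = p
        rw [q2l]; exact h4
      · change q₂ (q₁ (Sum.inl (M₁.vert (M₁.α d)))) = r
        rw [q2l]; exact h5
    · refine ⟨Sum.inr d, fun h => h3 (Sum.inr.inj h), ?_, ?_⟩
      · change q₂ (q₁ (Sum.inr (M₂.vert d))) = p
        rw [q2r]; exact h4
      · change q₂ (q₁ (Sum.inr (M₂.vert (M₂.α d)))) = r
        rw [q2r]; exact h5
  · rintro ⟨d | d, h3, h4, h5⟩
    · refine Or.inl ⟨d, fun h => h3 (congrArg Sum.inl h), ?_, ?_⟩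
      · rw [← q2l (M₁.vert d)]; exact h4
      · rw [← q2l (M₁.vert (M₁.α d))]; exact h5
    · refine Or.inr ⟨d, fun h => h3 (congrArg Sum.inr h), ?_, ?_⟩
      · rw [← q2r (M₂.vert d)]; exact h4
      · rw [← q2r (M₂.vert (M₂.α d))]; exact h5

end Pool.H96.W
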