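import Pool.Agent.H96.W.Closure

set_option autoImplicit false

/-! # the complete graph on four vertices -/

namespace Pool.H96.W

open Equiv Relation Pool.WG

theorem cyc_ge {D : Type} [Finite D] {π : Perm D} {k : ℕ} (c : D → Fin k)
    (hs : Function.Surjective c) (h : ∀ x, c (π x) = c x) : k ≤ cyc π := by
  have : Finite (Quot (Gr π)) := Finite.of_surjective (Quot.mk _) Quot.mk_surjective
  have hl : Function.Surjective (Quot.lift c (fun a b (hab : π a = b) => by rw [← hab, h]) :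
      Quot (Gr π) → Fin k) := by
    intro i
    obtain ⟨x, hx⟩ := hs i
    exact ⟨Quot.mk _ x, hx⟩
  have := Nat.card_le_card_of_surjective _ hl
  rw [Nat.card_fin] at this
  exact this

theorem comp_le_one {D : Type} [Finite D] {σ α : Perm D} (x₀ : D) (h : ∀ x, Conn σ α x₀ x) :
    comp σ α ≤ 1 := by
  have : Finite (Quot (Gen σ α)) := Finite.of_surjective (Quot.mk _) Quot.mk_surjective
  unfold comp ncl
  rw [Finite.card_le_one_iff_subsingleton]
  constructor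
  rintro ⟨a⟩ ⟨b⟩
  exact quot_eq_iff.2 ((h a).symm.trans (h b))

def k4σf : Fin 12 → Fin 12 := ![1, 2, 0, 4, 5, 3, 7, 8, 6, 10, 11, 9]
def k4σg : Fin 12 → Fin 12 := ![2, 0, 1, 5, 3, 4, 8, 6, 7, 11, 9, 10]
def k4αf : Fin 12 → Fin 12 := ![3, 6, 9, 0, 11, 7, 1, 5, 10, 2, 8, 4]
def k4v : Fin 12 → Fin 4 := ![0, 0, 0, 1, 1, 1, 2, 2, 2, 3, 3, 3]
def k4e : Fin 12 → Fin 6 := ![0, 1, 2, 0, 3, 4, 1, 4, 5, 2, 5, 3]
def k4φ : Fin 12 → Fin 4 := ![0, 1, 2, 1, 0, 3, 2, 1, 3, 0, 2, 3]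

def k4σ : Perm (Fin 12) := ⟨k4σf, k4σg, by decide, by decide⟩
def k4α : Perm (Fin 12) := ⟨k4αf, k4αf, by decide, by decide⟩

theorem k4inv : ∀ d, k4α (k4α d) = d := by decide

theorem k4conn : ∀ x, Conn k4σ k4α 0 x := by
  have s : ∀ a, Conn k4σ k4α a (k4σ a) := Conn.of_sigma
  have t : ∀ a, Conn k4σ k4α a (k4α a) := Conn.of_alpha
  have h0 : Conn k4σ k4α 0 0 := Conn.refl _ _ _
  have h1 : Conn k4σ k4α 0 1 := h0.trans (s 0)
  have h2 : Conn k4σ k4α 0 2 := h1.trans (s 1)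
  have h3 : Conn k4σ k4α 0 3 := h0.trans (t 0)
  have h4 : Conn k4σ k4α 0 4 := h3.trans (s 3)
  have h5 : Conn k4σ k4α 0 5 := h4.trans (s 4)
  have h6 : Conn k4σ k4α 0 6 := h1.trans (t 1)
  have h7 : Conn k4σ k4α 0 7 := h6.trans (s 6)
  have h8 : Conn k4σ k4α 0 8 := h7.trans (s 7)
  have h9 : Conn k4σ k4α 0 9 := h2.trans (t 2)
  have h10 : Conn k4σ k4α 0 10 := h9.trans (s 9)
  have h11 : Conn k4σ k4α 0 11 := h10.trans (s 10)
  intro x
  fin_cases x
  · exact h0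
  · exact h1
  · exact h2
  · exact h3
  · exact h4
  · exact h5
  · exact h6
  · exact h7
  · exact h8
  · exact h9
  · exact h10
  · exact h11

theorem k4planar : Def k4σ k4α = 0 := by
  refine le_antisymm ?_ (Def_nonneg k4inv)
  have h1 : 4 ≤ cyc k4σ := cyc_ge k4v (by decide) (by decide)
  have h2 : 6 ≤ cyc k4α := cyc_ge k4e (by decide) (by decide)
  have h3 : 4 ≤ cyc (k4σ * k4α) := cyc_ge k4φ (by decide) (by decide)
  have h4 : comp k4σ k4α ≤ 1 := comp_le_one 0 k4conn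
  unfold Def
  rw [Nat.card_fin]
  push_cast
  omega

theorem pd_k4 : PK4 PD := by
  refine ⟨⟨Fin 12, k4σ, k4α, k4inv, k4v, ?_, k4planar⟩, ?_⟩
  · intro a b
    constructor
    · intro h
      have : ∀ a b, k4v a = k4v b → ∃ i : Fin 3, (k4σ ^ (i : ℕ)) a = b := by decide
      obtain ⟨i, hi⟩ := this a b h
      exact ⟨((i : ℕ) : ℤ), by rw [zpow_natCast]; exact hi⟩
    · intro h
      have h1 : ∀ x, k4v (k4σ x) = k4v x := by decide
      have : b ∈ {x | k4v x = k4v a} :=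
        sameCycle_closed (fun x (hx : k4v x = k4v a) => (by
          change k4v (k4σ x) = k4v a
          rw [h1, hx])) (by rfl) h
      exact this.symm
  · intro u v
    change u ≠ v ↔ ∃ d, k4α d ≠ d ∧ k4v d = u ∧ k4v (k4α d) = v
    revert u v
    decide

end Pool.H96.W
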