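import Pool.Agent.H96.W.Lnk
import Pool.Agent.H96.W.Glue2
import Pool.Agent.H96.W.K4
import Pool.Agent.H42.WG.Fin
import Pool.Agent.H42.M1.Hub

set_option autoImplicit false

/-! # graphs without `K5` and `K33` minor have a rotation system of genus zero -/

namespace Pool.H96.W

open Equiv Relation Pool.WG

/-- remove all dead darts, with the inclusion of the darts -/
theorem LMap.removeDead' {V : Type} (M : LMap V) :
    ∃ (M' : LMap V) (ι : M'.D → M.D), Function.Injective ι ∧ (∀ d, M.α (ι d) ≠ ι d) ∧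
      (∀ e, M.α e ≠ e → ∃ d, ι d = e) ∧ (∀ d, M.vert (ι d) = M'.vert d) ∧
      (∀ d, M.α (ι d) = ι (M'.α d)) := by
  classical
  obtain ⟨π, h1, h2, h3⟩ := isolate M.inv M.σ M.planar
  let L : M.D → Prop := fun d => M.α d ≠ d
  have hα : ∀ d, L (M.α d) ↔ L d := by
    intro d
    change M.α (M.α d) ≠ M.α d ↔ M.α d ≠ d
    rw [M.inv]
    exact ⟨fun h h' => h h'.symm, fun h h' => h h'.symm⟩
  have hπ : ∀ d, L (π d) ↔ L d := by
    intro d
    constructor
    · intro h h'
      rw [h2 d h'] at h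
      exact h h'
    · intro h h'
      have h4 := h2 _ h'
      have : π d = d := π.injective h4
      rw [this] at h'
      exact h h'
  let πL : Perm {d // L d} := π.subtypePerm hπ
  let αL : Perm {d // L d} := M.α.subtypePerm hα
  have key : Def π M.α = Def πL αL := by
    have h5 : Def (Perm.sumCongr πL (1 : Perm {d // ¬ L d}))
        (Perm.sumCongr αL (1 : Perm {d // ¬ L d})) = Def π M.α := by
      refine Def_equiv (Equiv.sumCompl L) ?_ ?_
      · rintro (⟨d, hd⟩ | ⟨d, hd⟩)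
        · rfl
        · change d = π d
          rw [h2 d (not_not.1 hd)]
      · rintro (⟨d, hd⟩ | ⟨d, hd⟩)
        · rfl
        · change d = M.α d
          exact (not_not.1 hd).symm
    rw [← h5, Def_sumCongr, Def_one, add_zero]
  have hpow : ∀ (n : ℤ) (x : {d // L d}), ((πL ^ n) x : M.D) = (π ^ n) x.1 := by
    intro n x
    rw [Perm.subtypePerm_zpow]
    rfl
  refine ⟨⟨{d // L d}, πL, αL, ?_, fun d => M.vert d.1, ?_, ?_⟩, fun d => d.1, ?_, ?_, ?_, ?_, ?_⟩
  · rintro ⟨d, hd⟩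
    exact Subtype.ext (M.inv d)
  · rintro ⟨a, ha⟩ ⟨b, hb⟩
    rw [M.same, ← h3 a b ha hb]
    constructor
    · rintro ⟨n, hn⟩
      refine ⟨n, Subtype.ext ?_⟩
      rw [hpow]; exact hn
    · rintro ⟨n, hn⟩
      refine ⟨n, ?_⟩
      have := congrArg Subtype.val hn
      rwa [hpow] at this
  · rw [← key, h1]
  · exact Subtype.val_injective
  · rintro ⟨d, hd⟩; exact hd
  · intro e he; exact ⟨⟨e, he⟩, rfl⟩
  · intro d; rfl
  · intro d; rfl

/-- one dart for each dart of the graph -/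
theorem exists_simple {V : Type} [Finite V] {G : SimpleGraph V} (h : PD V G) :
    ∃ M : LMap V, (∀ d, M.α d ≠ d) ∧ (∀ u v, G.Adj u v ↔ M.E u v) ∧
      ∀ d d', M.vert d = M.vert d' → M.vert (M.α d) = M.vert (M.α d') → d = d' := by
  classical
  obtain ⟨M, hM⟩ := h
  let key : V → ℕ := fun v => (Finite.equivFin V v : ℕ)
  have hkey : Function.Injective key := fun a b hab =>
    (Finite.equivFin V).injective (Fin.ext hab)
  have hc : ∀ d : G.Dart, ∃ e, M.α e ≠ e ∧ M.vert e = d.fst ∧ M.vert (M.α e) = d.snd :=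
    fun d => (hM _ _).1 d.adj
  choose c hc1 hc2 hc3 using hc
  let P : Set M.D := {e | ∃ d : G.Dart, key d.fst < key d.snd ∧ (e = c d ∨ e = M.α (c d))}
  have hP : ∀ e, e ∈ P → M.α e ∈ P := by
    rintro e ⟨d, hd, rfl | rfl⟩
    · exact ⟨d, hd, Or.inr rfl⟩
    · exact ⟨d, hd, Or.inl (M.inv _)⟩
  have hPinj : ∀ e ∈ P, ∀ e' ∈ P, M.vert e = M.vert e' → M.vert (M.α e) = M.vert (M.α e') →
      e = e' := by
    rintro e ⟨d, hd, he⟩ e' ⟨d', hd', he'⟩ h1 h2
    have hext : ∀ d d' : G.Dart, d.fst = d'.fst → d.snd = d'.snd → d = d' := by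
      intro d d' h h'
      exact SimpleGraph.Dart.ext _ _ (Prod.ext h h')
    rcases he with rfl | rfl <;> rcases he' with rfl | rfl
    · rw [hc2, hc2] at h1
      rw [hc3, hc3] at h2
      rw [hext d d' h1 h2]
    · rw [hc2, hc3] at h1
      rw [M.inv, hc3, hc2] at h2
      rw [h1, h2] at hd
      exact absurd hd (lt_asymm hd')
    · rw [hc3, hc2] at h1
      rw [M.inv, hc2, hc3] at h2
      rw [h1, h2] at hd
      exact absurd hd (lt_asymm hd')
    · rw [hc3, hc3] at h1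
      rw [M.inv, M.inv, hc2, hc2] at h2
      rw [hext d d' h2 h1]
  have hE : ∀ u v, G.Adj u v ↔ (M.kill P hP).E u v := by
    intro u v
    rw [LMap.kill_E]
    constructor
    · intro huv
      have hne : key u ≠ key v := fun h => huv.ne (hkey h)
      rcases Nat.lt_or_gt_of_ne hne with h | h
      · let d : G.Dart := ⟨(u, v), huv⟩
        exact ⟨c d, ⟨d, h, Or.inl rfl⟩, hc1 d, hc2 d, hc3 d⟩
      · let d : G.Dart := ⟨(v, u), huv.symm⟩
        refine ⟨M.α (c d), ⟨d, h, Or.inr rfl⟩, ?_, hc3 d, ?_⟩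
        · rw [M.inv]; exact fun h => hc1 d h.symm
        · rw [M.inv]; exact hc2 d
    · rintro ⟨e, -, h1, h2, h3⟩
      exact (hM u v).2 ⟨e, h1, h2, h3⟩
  obtain ⟨M', ι, i1, i2, i3, i4, i5⟩ := (M.kill P hP).removeDead'
  refine ⟨M', ?_, ?_, ?_⟩
  · intro d hd
    refine i2 d ?_
    rw [i5, hd]
  · intro u v
    rw [hE]
    constructor
    · rintro ⟨e, h1, h2, h3⟩
      obtain ⟨d, rfl⟩ := i3 e h1
      refine ⟨d, ?_, ?_, ?_⟩
      · intro hd; exact i2 d (by rw [i5, hd])
      · rw [← i4]; exact h2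
      · rw [← i4, ← i5]; exact h3
    · rintro ⟨d, h1, h2, h3⟩
      refine ⟨ι d, i2 d, ?_, ?_⟩
      · rw [i4]; exact h2
      · rw [i5, i4]; exact h3
  · intro d d' h1 h2
    refine i1 ?_
    have hin : ∀ d, ι d ∈ P := by
      intro d
      by_contra hno
      exact i2 d (M.kill_α' P hP _ hno)
    refine hPinj _ (hin d) _ (hin d') ?_ ?_
    · have e1 : M.vert (ι d) = M'.vert d := i4 d
      have e2 : M.vert (ι d') = M'.vert d' := i4 d'
      rw [e1, e2, h1]
    · rw [← M.kill_α P hP _ (hin d), ← M.kill_α P hP _ (hin d')]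
      rw [i5, i5]
      have e1 : M.vert (ι (M'.α d)) = M'.vert (M'.α d) := i4 _
      have e2 : M.vert (ι (M'.α d')) = M'.vert (M'.α d') := i4 _
      rw [e1, e2, h2]

theorem rot_of_PD {V : Type} [Finite V] {G : SimpleGraph V} (h : PD V G) :
    Nonempty (Pool.M1.Rot G) := by
  classical
  obtain ⟨M, hl, hE, hs⟩ := exists_simple h
  let e : M.D ≃ G.Dart := by
    refine Equiv.ofBijective
      (fun d => ⟨(M.vert d, M.vert (M.α d)), (hE _ _).2 ⟨d, hl d, rfl, rfl⟩⟩) ⟨?_, ?_⟩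
    · intro d d' hdd
      have h1 := congrArg SimpleGraph.Dart.toProd hdd
      exact hs d d' (congrArg Prod.fst h1) (congrArg Prod.snd h1)
    · intro d
      obtain ⟨x, -, h2, h3⟩ := (hE _ _).1 d.adj
      exact ⟨x, SimpleGraph.Dart.ext _ _ (Prod.ext h2 h3)⟩
  have efst : ∀ d, (e d).fst = M.vert d := fun d => rfl
  have esnd : ∀ d, (e d).snd = M.vert (M.α d) := fun d => rfl
  have eα : ∀ d, e (M.α d) = (Pool.M1.rev G) (e d) := by
    intro d
    refine SimpleGraph.Dart.ext _ _ (Prod.ext rfl ?_)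
    change M.vert (M.α (M.α d)) = M.vert d
    rw [M.inv]
  let σ : Perm G.Dart := (e.symm.trans M.σ).trans e
  have eσ : ∀ d, e (M.σ d) = σ (e d) := by
    intro d
    change e (M.σ d) = e (M.σ (e.symm (e d)))
    rw [e.symm_apply_apply]
  refine ⟨⟨σ, ?_, ?_, ?_⟩⟩
  · intro d
    obtain ⟨x, rfl⟩ := e.surjective d
    rw [← eσ, efst, efst, M.vert_σ]
  · intro d d' hdd
    obtain ⟨x, rfl⟩ := e.surjective d
    obtain ⟨y, rfl⟩ := e.surjective d'
    rw [efst, efst] at hdd
    have h1 := eqvGen_Gr_iff.2 ((M.same x y).1 hdd)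
    refine eqvGen_le (s := fun x y => σ.SameCycle (e x) (e y)) ?_ ?_ h1
    · exact ⟨fun _ => Perm.SameCycle.refl _ _, fun h => h.symm, fun h h' => h.trans h'⟩
    · intro u v huv
      have huv' : M.σ u = v := huv
      rw [← huv', eσ]
      exact Perm.sameCycle_apply_right.2 (Perm.SameCycle.refl _ _)
  · rw [← M.planar]
    exact (Def_equiv e eσ eα).symm

/-- **Wagner's theorem, combinatorial form** -/
theorem wagner {V : Type} [Finite V] (G : SimpleGraph V) (h : Fr G) :
    Nonempty (Pool.M1.Rot G) := by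
  refine rot_of_PD (wagnerAbs PD ⟨pd_map, pd_mono, pd_k4, pd_gl1, pd_gl2, pd_lnk⟩ V G h)

end Pool.H96.W
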