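import Pool.Agent.H96.W.Dead
import Pool.Agent.H42.WG.Abs

set_option autoImplicit false

/-! # closure properties of the class of graphs with a planar map -/

namespace Pool.H96.W

open Equiv Relation Pool.WG

/-- `G` has a planar map (isolated vertices need not be present) -/
def PD (V : Type) (G : SimpleGraph V) : Prop := ∃ M : LMap V, ∀ u v, G.Adj u v ↔ M.E u v

/-- it is enough to draw a supergraph -/
theorem PD_of_sup {V : Type} {G : SimpleGraph V} (M : LMap V) (h : ∀ u v, G.Adj u v → M.E u v) :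
    PD V G := by
  refine ⟨M.kill {d | G.Adj (M.vert d) (M.vert (M.α d))} ?_, ?_⟩
  · intro d hd
    have hd' : G.Adj (M.vert d) (M.vert (M.α d)) := hd
    change G.Adj (M.vert (M.α d)) (M.vert (M.α (M.α d)))
    rw [M.inv]; exact hd'.symm
  · intro u v
    rw [LMap.kill_E]
    constructor
    · intro huv
      obtain ⟨d, h1, h2, h3⟩ := h u v huv
      refine ⟨d, ?_, h1, h2, h3⟩
      change G.Adj (M.vert d) (M.vert (M.α d))
      rw [h2, h3]; exact huv
    · rintro ⟨d, hd, h1, h2, h3⟩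
      have hd' : G.Adj (M.vert d) (M.vert (M.α d)) := hd
      rwa [h2, h3] at hd'

/-- all darts live -/
theorem PD_live {V : Type} {G : SimpleGraph V} (h : PD V G) :
    ∃ M : LMap V, (∀ d, M.α d ≠ d) ∧ ∀ u v, G.Adj u v ↔ M.E u v := by
  obtain ⟨M, hM⟩ := h
  obtain ⟨M', h1, h2⟩ := M.removeDead
  exact ⟨M', h1, fun u v => (hM u v).trans (h2 u v).symm⟩

theorem LMap.live_adj {V : Type} {M : LMap V} {G : SimpleGraph V}
    (hE : ∀ u v, G.Adj u v ↔ M.E u v) {d : M.D} (hd : M.α d ≠ d) :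
    G.Adj (M.vert d) (M.vert (M.α d)) := (hE _ _).2 ⟨d, hd, rfl, rfl⟩

theorem pd_mono : PMono PD := by
  rintro V _ G' G h ⟨M, hM⟩
  exact PD_of_sup M fun u v huv => (hM u v).1 (h huv)

theorem pd_map : PMap PD := by
  intro V W _ _ f G
  constructor
  · intro h
    obtain ⟨M, h1, h2⟩ := PD_live h
    have hr : ∀ d, ∃ v, f v = M.vert d := by
      intro d
      have := (h2 _ _).2 ⟨d, h1 d, rfl, rfl⟩
      rw [SimpleGraph.map_adj] at this
      obtain ⟨a, b, -, h3, -⟩ := this
      exact ⟨a, h3⟩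
    choose g hg using hr
    refine ⟨⟨M.D, M.σ, M.α, M.inv, g, ?_, M.planar⟩, ?_⟩
    · intro a b
      rw [← M.same, ← hg a, ← hg b, f.injective.eq_iff]
    · intro u v
      have : G.Adj u v ↔ (G.map f).Adj (f u) (f v) := by
        rw [SimpleGraph.map_adj]
        constructor
        · intro h; exact ⟨u, v, h, rfl, rfl⟩
        · rintro ⟨a, b, h, h3, h4⟩
          rw [← f.injective h3, ← f.injective h4]; exact h
      rw [this, h2]
      constructor
      · rintro ⟨d, h3, h4, h5⟩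
        refine ⟨d, h3, ?_, ?_⟩
        · exact f.injective (by rw [hg, h4])
        · exact f.injective (by rw [hg]; exact h5)
      · rintro ⟨d, h3, h4, h5⟩
        refine ⟨d, h3, ?_, ?_⟩
        · rw [← h4]; exact (hg d).symm
        · rw [← h5]; exact (hg _).symm
  · rintro ⟨M, hM⟩
    refine ⟨M.relabel f ?_, ?_⟩
    · intro a b h; exact f.injective h
    · intro u v
      rw [SimpleGraph.map_adj]
      constructor
      · rintro ⟨a, b, h, rfl, rfl⟩
        obtain ⟨d, h3, h4, h5⟩ := (hM _ _).1 h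
        exact ⟨d, h3, congrArg f h4, congrArg f h5⟩
      · rintro ⟨d, h3, h4, h5⟩
        exact ⟨_, _, (hM _ _).2 ⟨d, h3, rfl, rfl⟩, h4, h5⟩

theorem pd_gl1 : PGl1 PD := by
  intro V _ G₁ G₂ u hu h1 h2
  obtain ⟨M₁, l1, e1⟩ := PD_live h1
  obtain ⟨M₂, l2, e2⟩ := PD_live h2
  let q : V ⊕ V → V := Sum.elim id id
  have hcom : ∀ (x : M₁.D) (y : M₂.D), M₁.vert x = M₂.vert y → M₁.vert x = u := by
    intro x y hxy
    refine hu _ (M₁.vert (M₁.α x)) (M₂.vert (M₂.α y)) (LMap.live_adj e1 (l1 x)) ?_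
    rw [hxy]; exact LMap.live_adj e2 (l2 y)
  by_cases hb : ∃ (a : M₁.D) (b : M₂.D), M₁.vert a = u ∧ M₂.vert b = u
  · obtain ⟨a, b, ha, hb⟩ := hb
    refine ⟨(M₁.union M₂).merge q (Sum.inl a) (Sum.inr b) ?_ ?_ (Or.inl not_conn_sum), ?_⟩
    · change Sum.inl _ ≠ Sum.inr _
      simp
    · rintro (x | x) (y | y)
      · change M₁.vert x = M₁.vert y ↔ (Sum.inl _ = Sum.inl _ ∨ ((Sum.inl (M₁.vert x) = Sum.inl (M₁.vert a)
          ∨ Sum.inl (M₁.vert x) = Sum.inr (M₂.vert b)) ∧ (Sum.inl (M₁.vert y) = Sum.inl (M₁.vert a)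
          ∨ Sum.inl (M₁.vert y) = Sum.inr (M₂.vert b))))
        simp only [Sum.inl.injEq, reduceCtorEq, or_false]
        constructor
        · exact Or.inl
        · rintro (h | ⟨h, h'⟩)
          · exact h
          · rw [h, h']
      · change M₁.vert x = M₂.vert y ↔ (Sum.inl (M₁.vert x) = Sum.inr (M₂.vert y) ∨ ((Sum.inl (M₁.vert x) = Sum.inl (M₁.vert a)
          ∨ Sum.inl (M₁.vert x) = Sum.inr (M₂.vert b)) ∧ (Sum.inr (M₂.vert y) = Sum.inl (M₁.vert a)
          ∨ Sum.inr (M₂.vert y) = Sum.inr (M₂.vert b))))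
        simp only [Sum.inl.injEq, Sum.inr.injEq, reduceCtorEq, or_false, false_or]
        constructor
        · intro h
          have := hcom x y h
          rw [ha, hb]
          exact ⟨this, by rw [← h]; exact this⟩
        · rintro ⟨h, h'⟩
          rw [h, h', ha, hb]
      · change M₂.vert x = M₁.vert y ↔ (Sum.inr (M₂.vert x) = Sum.inl (M₁.vert y) ∨ ((Sum.inr (M₂.vert x) = Sum.inl (M₁.vert a)
          ∨ Sum.inr (M₂.vert x) = Sum.inr (M₂.vert b)) ∧ (Sum.inl (M₁.vert y) = Sum.inl (M₁.vert a)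
          ∨ Sum.inl (M₁.vert y) = Sum.inr (M₂.vert b))))
        simp only [Sum.inl.injEq, Sum.inr.injEq, reduceCtorEq, or_false, false_or]
        constructor
        · intro h
          have := hcom y x h.symm
          rw [ha, hb]
          exact ⟨by rw [h]; exact this, this⟩
        · rintro ⟨h, h'⟩
          rw [h, h', ha, hb]
      · change M₂.vert x = M₂.vert y ↔ (Sum.inr _ = Sum.inr _ ∨ ((Sum.inr (M₂.vert x) = Sum.inl (M₁.vert a)
          ∨ Sum.inr (M₂.vert x) = Sum.inr (M₂.vert b)) ∧ (Sum.inr (M₂.vert y) = Sum.inl (M₁.vert a)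
          ∨ Sum.inr (M₂.vert y) = Sum.inr (M₂.vert b))))
        simp only [Sum.inr.injEq, reduceCtorEq, false_or]
        constructor
        · exact Or.inl
        · rintro (h | ⟨h, h'⟩)
          · exact h
          · rw [h, h']
    · intro p r
      rw [SimpleGraph.sup_adj, e1, e2]
      constructor
      · rintro (⟨d, h3, h4, h5⟩ | ⟨d, h3, h4, h5⟩)
        · exact ⟨Sum.inl d, fun h => h3 (Sum.inl.inj h), h4, h5⟩
        · exact ⟨Sum.inr d, fun h => h3 (Sum.inr.inj h), h4, h5⟩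
      · rintro ⟨d | d, h3, h4, h5⟩
        · exact Or.inl ⟨d, fun h => h3 (congrArg Sum.inl h), h4, h5⟩
        · exact Or.inr ⟨d, fun h => h3 (congrArg Sum.inr h), h4, h5⟩
  · refine ⟨(M₁.union M₂).relabel q ?_, ?_⟩
    · rintro (x | x) (y | y) h
      · exact congrArg Sum.inl h
      · exfalso
        have h' : M₁.vert x = M₂.vert y := h
        have := hcom x y h'
        exact hb ⟨x, y, this, by rw [← h']; exact this⟩
      · exfalso
        have h' : M₂.vert x = M₁.vert y := h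
        have := hcom y x h'.symm
        exact hb ⟨y, x, this, by rw [h']; exact this⟩
      · exact congrArg Sum.inr h
    · intro p r
      rw [SimpleGraph.sup_adj, e1, e2]
      constructor
      · rintro (⟨d, h3, h4, h5⟩ | ⟨d, h3, h4, h5⟩)
        · exact ⟨Sum.inl d, fun h => h3 (Sum.inl.inj h), h4, h5⟩
        · exact ⟨Sum.inr d, fun h => h3 (Sum.inr.inj h), h4, h5⟩
      · rintro ⟨d | d, h3, h4, h5⟩
        · exact Or.inl ⟨d, fun h => h3 (congrArg Sum.inl h), h4, h5⟩
        · exact Or.inr ⟨d, fun h => h3 (congrArg Sum.inr h), h4, h5⟩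

end Pool.H96.W
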