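import Mathlib

set_option autoImplicit false

/-! # compressing a periodic walk -/

namespace Pool.H96.W

theorem compress {W : Type} (N : ℕ) (hN : 0 < N) (v : ℕ → W) (L : ℕ → Prop)
    (hvN : ∀ j, v (j + N) = v j) (hLN : ∀ j, L (j + N) ↔ L j)
    (hdead : ∀ j, ¬ L j → v (j + 1) = v j) (hex : ∃ j, L j)
    (hinj : ∀ a < N, ∀ b < N, L a → L b → v a = v b → a = b) :
    ∃ (m : ℕ) (n : ℕ → ℕ), 0 < m ∧ (∀ i, L (n i)) ∧ StrictMono n ∧ (∀ i, n (i + m) = n i + N) ∧
      (∀ i < m, ∀ j < m, v (n i) = v (n j) → i = j) ∧ (∀ i, v (n (i + 1)) = v (n i + 1)) ∧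
      (∀ j, ∃ i, v j = v (n i)) := by
  classical
  have hLk : ∀ j k, L j → L (j + k * N) := by
    intro j k hj
    induction k with
    | zero => simpa using hj
    | succ k ih =>
      rw [show j + (k + 1) * N = j + k * N + N by ring]
      exact (hLN _).2 ih
  have hinf : (Set.ofPred L).Infinite := by
    obtain ⟨j, hj⟩ := hex
    refine Set.infinite_of_not_bddAbove ?_
    rintro ⟨B, hB⟩
    have h1 : j + (B + 1) * N ≤ B := hB (hLk j (B + 1) hj)
    have h2 : B + 1 ≤ (B + 1) * N := Nat.le_mul_of_pos_right _ hN
    omega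
  let n : ℕ → ℕ := Nat.nth L
  let m : ℕ := Nat.count L N
  have hn : ∀ i, L (n i) := fun i => Nat.nth_mem_of_infinite hinf i
  have hmono : StrictMono n := Nat.nth_strictMono hinf
  have hcn : ∀ i, Nat.count L (n i) = i := fun i => Nat.count_nth_of_infinite hinf i
  have hshift : ∀ i, n (i + m) = n i + N := by
    intro i
    have hcc : ∀ a, Nat.count (fun k => L (k + N)) a = Nat.count L a := by
      intro a
      induction a with
      | zero => simp
      | succ a ih =>
        rw [Nat.count_succ, Nat.count_succ, ih]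
        by_cases h : L a
        · rw [if_pos h, if_pos ((hLN a).2 h)]
        · rw [if_neg h, if_neg (fun h' => h ((hLN a).1 h'))]
    have h1 : Nat.count L (n i + N) = i + m := by
      rw [Nat.count_add', hcc, hcn]
    have h2 : L (n i + N) := (hLN _).2 (hn i)
    have := Nat.nth_count h2
    rw [h1] at this
    exact this
  have hconst : ∀ j t, j ≤ t → t ≤ n (Nat.count L j) → v t = v j := by
    intro j t hjt
    induction t, hjt using Nat.le_induction with
    | base => intro _; rfl
    | succ t hjt ih =>
      intro ht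
      rw [← ih (by omega)]
      apply hdead
      intro hLt
      have h1 : Nat.count L t < Nat.count L (t + 1) := Nat.count_strict_mono hLt (Nat.lt_succ_self t)
      have h2 : Nat.count L (t + 1) ≤ Nat.count L (n (Nat.count L j)) := Nat.count_monotone L ht
      have h3 : Nat.count L j ≤ Nat.count L t := Nat.count_monotone L hjt
      rw [hcn] at h2
      omega
  have hle : ∀ j, j ≤ n (Nat.count L j) := fun j => Nat.le_nth_count hinf j
  have hrep : ∀ j, v j = v (n (Nat.count L j)) := fun j => (hconst j _ (hle j) le_rfl).symm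
  refine ⟨m, n, ?_, hn, hmono, hshift, ?_, ?_, ?_⟩
  · -- `0 < m`
    by_contra h0
    have : m = 0 := by omega
    have := hshift 0
    rw [‹m = 0›] at this
    simp only [zero_add] at this
    omega
  · intro i hi j hj hij
    have h1 : n i < N := Nat.nth_lt_of_lt_count hi
    have h2 : n j < N := Nat.nth_lt_of_lt_count hj
    exact hmono.injective (hinj _ h1 _ h2 (hn i) (hn j) hij)
  · intro i
    have h1 := hrep (n i + 1)
    have h2 : Nat.count L (n i + 1) = i + 1 := by
      rw [Nat.count_succ, hcn, if_pos (hn i)]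
    rw [h2] at h1
    exact h1.symm
  · intro j
    exact ⟨_, hrep j⟩

end Pool.H96.W
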