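import Pool.Agent.H96.W.Ncl

set_option autoImplicit false

namespace Pool.H96.W

open Equiv Relation

variable {D : Type}

theorem eqvGen_Gr_iff {π : Perm D} {a b : D} : EqvGen (Gr π) a b ↔ π.SameCycle a b := by
  constructor
  · intro h
    refine eqvGen_le (Perm.SameCycle.equivalence π) ?_ h
    intro x y hxy
    exact ⟨1, by rw [zpow_one]; exact hxy⟩
  · rintro ⟨n, rfl⟩
    have key : ∀ (m : ℕ) (x : D), EqvGen (Gr π) x ((π ^ m) x) := by
      intro m
      induction m with
      | zero => intro x; exact EqvGen.refl _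
      | succ m ih =>
        intro x
        rw [pow_succ']
        exact EqvGen.trans _ _ _ (ih x) (EqvGen.rel _ _ rfl)
    cases n with
    | ofNat m => simpa using key m a
    | negSucc m =>
      have h1 := key (m + 1) ((π ^ (Int.negSucc m)) a)
      have h2 : (π ^ (m + 1)) ((π ^ (Int.negSucc m)) a) = a := by
        rw [← zpow_natCast, ← Perm.mul_apply, ← zpow_add]
        have : ((m + 1 : ℕ) : ℤ) + Int.negSucc m = 0 := by
          rw [Int.negSucc_eq]; push_cast; ring
        rw [this]; rfl
      rw [h2] at h1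
      exact EqvGen.symm _ _ h1

/-- induction along a cycle: a set closed under `π` that contains `a` contains the cycle of `a` -/
theorem sameCycle_closed [Finite D] {π : Perm D} {S : Set D} (hS : ∀ x ∈ S, π x ∈ S) {a b : D}
    (ha : a ∈ S) (h : π.SameCycle a b) : b ∈ S := by
  obtain ⟨n, hn⟩ := h.exists_nat_pow_eq
  subst hn
  have : ∀ m : ℕ, (π ^ m) a ∈ S := by
    intro m
    induction m with
    | zero => simpa using ha
    | succ m ih =>
      rw [pow_succ']
      exact hS _ ih
  exact this n

variable [DecidableEq D]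

theorem swap_apply_ne {a b x : D} (π : Perm D) (ha : x ≠ a) (hb : x ≠ b) :
    (π * swap a b) x = π x := by
  rw [Perm.mul_apply, swap_apply_of_ne_of_ne ha hb]

/-- from a different cycle: `a` and `b` get connected -/
theorem sameCycle_mul_swap [Finite D] {π : Perm D} {a b : D} (h : ¬ π.SameCycle a b) :
    (π * swap a b).SameCycle a b := by
  have hab : a ≠ b := fun e => h (e ▸ Perm.SameCycle.refl _ _)
  -- walk from `b`: `π'' b = π a`, and then along the cycle of `a` back to `a`
  obtain ⟨n, hn, -, hn'⟩ : ∃ n, 0 < n ∧ n ≤ n ∧ (π ^ n) a = a := by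
    refine ⟨orderOf π, orderOf_pos π, le_rfl, ?_⟩
    rw [pow_orderOf_eq_one]; rfl
  classical
  let p := Nat.find (⟨n, hn, hn'⟩ : ∃ n, 0 < n ∧ (π ^ n) a = a)
  have hp : 0 < p ∧ (π ^ p) a = a := Nat.find_spec (⟨n, hn, hn'⟩ : ∃ n, 0 < n ∧ (π ^ n) a = a)
  have hmin : ∀ m, m < p → ¬ (0 < m ∧ (π ^ m) a = a) := fun m hm =>
    Nat.find_min (⟨n, hn, hn'⟩ : ∃ n, 0 < n ∧ (π ^ n) a = a) hm
  have key : ∀ m, 0 < m → m ≤ p → (π * swap a b).SameCycle b ((π ^ m) a) := by
    intro m
    induction m with
    | zero => intro h0; exact absurd h0 (lt_irrefl _)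
    | succ m ih =>
      intro _ hm
      rcases Nat.eq_zero_or_pos m with rfl | hm0
      · refine ⟨1, ?_⟩
        simp
      · have h1 := ih hm0 (by omega)
        have hne : (π ^ m) a ≠ a := fun e => hmin m (by omega) ⟨hm0, e⟩
        have hne' : (π ^ m) a ≠ b := fun e => h ⟨m, by simpa using e⟩
        have h2 : (π * swap a b) ((π ^ m) a) = (π ^ (m + 1)) a := by
          rw [swap_apply_ne π hne hne', pow_succ', Perm.mul_apply]
        rw [← h2]
        exact Perm.sameCycle_apply_right.2 h1
  have := key p hp.1 le_rfl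
  rw [hp.2] at this
  exact this.symm

theorem not_sameCycle_mul_swap [Finite D] {π : Perm D} {a b : D} (hab : a ≠ b)
    (h : π.SameCycle a b) : ¬ (π * swap a b).SameCycle a b := by
  classical
  obtain ⟨n, hn'⟩ := h.symm.exists_nat_pow_eq
  have hn : 0 < n := by
    rcases Nat.eq_zero_or_pos n with rfl | h0
    · exact absurd (by simpa using hn') hab.symm
    · exact h0
  let p := Nat.find (⟨n, hn, hn'⟩ : ∃ n, 0 < n ∧ (π ^ n) b = a)
  have hp : 0 < p ∧ (π ^ p) b = a := Nat.find_spec (⟨n, hn, hn'⟩ : ∃ n, 0 < n ∧ (π ^ n) b = a)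
  have hmin : ∀ m, m < p → ¬ (0 < m ∧ (π ^ m) b = a) := fun m hm =>
    Nat.find_min (⟨n, hn, hn'⟩ : ∃ n, 0 < n ∧ (π ^ n) b = a) hm
  have hneb : ∀ m, 0 < m → m < p → (π ^ m) b ≠ b := by
    intro m h0 hm e
    refine hmin (p - m) (by omega) ⟨by omega, ?_⟩
    have : (π ^ p) b = (π ^ (p - m)) ((π ^ m) b) := by
      rw [← Perm.mul_apply, ← pow_add]
      congr 2
      omega
    rw [e, hp.2] at this
    exact this.symm
  let S : Set D := {x | ∃ m, 0 < m ∧ m ≤ p ∧ (π ^ m) b = x}
  have hS : ∀ x ∈ S, (π * swap a b) x ∈ S := by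
    rintro x ⟨m, h0, hm, rfl⟩
    rcases Nat.lt_or_ge m p with hlt | hge
    · have hnea : (π ^ m) b ≠ a := fun e => hmin m hlt ⟨h0, e⟩
      rw [swap_apply_ne π hnea (hneb m h0 hlt)]
      exact ⟨m + 1, by omega, by omega, by rw [pow_succ', Perm.mul_apply]⟩
    · have : m = p := by omega
      subst this
      rw [hp.2]
      refine ⟨1, by omega, by omega, ?_⟩
      simp
  intro hcon
  have hbS : b ∈ S := sameCycle_closed hS ⟨p, hp.1, le_rfl, hp.2⟩ hcon
  obtain ⟨m, h0, hm, e⟩ := hbS
  rcases Nat.lt_or_ge m p with hlt | hge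
  · exact hneb m h0 hlt e
  · have : m = p := by omega
    subst this
    exact hab (by rw [← hp.2, e])

/-- merging two cycles -/
theorem sameCycle_mul_swap_iff [Finite D] {π : Perm D} {a b : D} (h : ¬ π.SameCycle a b) (x y : D) :
    (π * swap a b).SameCycle x y ↔ π.SameCycle x y ∨
      ((π.SameCycle x a ∨ π.SameCycle x b) ∧ (π.SameCycle y a ∨ π.SameCycle y b)) := by
  have key : ∀ x y, (π * swap a b).SameCycle x y ↔ EqvGen (addP (Gr π) a b) x y := by
    intro x y
    constructor
    · intro hxy
      refine eqvGen_mono' ?_ (eqvGen_Gr_iff.2 hxy)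
      intro u v huv
      have mono : ∀ {u v : D}, EqvGen (Gr π) u v → EqvGen (addP (Gr π) a b) u v := fun h =>
        eqvGen_mono' (fun _ _ h => EqvGen.rel _ _ (Or.inl h)) h
      have hab : EqvGen (addP (Gr π) a b) a b := EqvGen.rel _ _ (Or.inr ⟨rfl, rfl⟩)
      have huv' : π (swap a b u) = v := huv
      by_cases hua : u = a
      · subst hua
        rw [swap_apply_left] at huv'
        exact EqvGen.trans _ _ _ hab (mono (EqvGen.rel _ _ huv'))
      · by_cases hub : u = b
        · subst hub
          rw [swap_apply_right] at huv'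
          exact EqvGen.trans _ _ _ (EqvGen.symm _ _ hab) (mono (EqvGen.rel _ _ huv'))
        · rw [swap_apply_of_ne_of_ne hua hub] at huv'
          exact mono (EqvGen.rel _ _ huv')
    · intro hxy
      refine eqvGen_le (Perm.SameCycle.equivalence _) ?_ hxy
      have hab : (π * swap a b).SameCycle a b := sameCycle_mul_swap h
      rintro u v (huv | ⟨rfl, rfl⟩)
      · have huv' : π u = v := huv
        by_cases hua : u = a
        · subst hua
          have : (π * swap u b) b = v := by simp [huv']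
          refine hab.trans ?_
          rw [← this]
          exact Perm.sameCycle_apply_right.2 (Perm.SameCycle.refl _ _)
        · by_cases hub : u = b
          · subst hub
            have : (π * swap a u) a = v := by simp [huv']
            refine hab.symm.trans ?_
            rw [← this]
            exact Perm.sameCycle_apply_right.2 (Perm.SameCycle.refl _ _)
          · have : (π * swap a b) u = v := by rw [swap_apply_ne π hua hub, huv']
            rw [← this]
            exact Perm.sameCycle_apply_right.2 (Perm.SameCycle.refl _ _)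
      · exact hab
  rw [key, eqvGen_addP, eqvGen_Gr_iff, eqvGen_Gr_iff, eqvGen_Gr_iff, eqvGen_Gr_iff, eqvGen_Gr_iff]

theorem cyc_mul_swap_of_not [Finite D] {π : Perm D} {a b : D} (h : ¬ π.SameCycle a b) :
    cyc π = cyc (π * swap a b) + 1 := by
  have h1 : ncl (Gr π) = ncl (addP (Gr π) a b) + 1 :=
    ncl_addP_of_not (fun h' => h (eqvGen_Gr_iff.1 h'))
  have h2 : ncl (addP (Gr π) a b) = ncl (Gr (π * swap a b)) := by
    refine ncl_congr fun x y => ?_
    rw [eqvGen_Gr_iff, sameCycle_mul_swap_iff h, eqvGen_addP, eqvGen_Gr_iff, eqvGen_Gr_iff,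
      eqvGen_Gr_iff, eqvGen_Gr_iff, eqvGen_Gr_iff]
  unfold cyc
  rw [h1, h2]

theorem cyc_mul_swap_of_same [Finite D] {π : Perm D} {a b : D} (hab : a ≠ b)
    (h : π.SameCycle a b) : cyc (π * swap a b) = cyc π + 1 := by
  have h1 := cyc_mul_swap_of_not (not_sameCycle_mul_swap hab h)
  rw [h1]
  congr 2
  rw [mul_assoc, swap_mul_self, mul_one]

omit [DecidableEq D] in
theorem cyc_one [Finite D] : cyc (1 : Perm D) = Nat.card D := by
  unfold cyc ncl
  refine Nat.card_congr ?_
  refine ⟨Quot.lift id ?_, Quot.mk _, ?_, ?_⟩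
  · intro a b h
    simpa [Gr] using h
  · rintro ⟨a⟩; rfl
  · intro a; rfl

end Pool.H96.W
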