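import Pool.Agent.H96.W.LMap

set_option autoImplicit false

/-! # removing dead darts -/

namespace Pool.H96.W

open Equiv Relation

variable {D : Type}

section congr

variable {D' : Type}

theorem ncl_equiv (e : D ≃ D') {r : D → D → Prop} {r' : D' → D' → Prop}
    (h : ∀ a b, r a b ↔ r' (e a) (e b)) : ncl r = ncl r' := by
  unfold ncl
  refine Nat.card_congr ?_
  refine ⟨Quot.lift (fun a => Quot.mk r' (e a)) ?_, Quot.lift (fun a => Quot.mk r (e.symm a)) ?_,
    ?_, ?_⟩
  · intro a b hab
    exact Quot.sound ((h a b).1 hab)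
  · intro a b hab
    refine Quot.sound ((h _ _).2 ?_)
    simpa using hab
  · rintro ⟨a⟩
    change Quot.mk r (e.symm (e a)) = Quot.mk r a
    rw [e.symm_apply_apply]
  · rintro ⟨a⟩
    change Quot.mk r' (e (e.symm a)) = Quot.mk r' a
    rw [e.apply_symm_apply]

theorem Def_equiv (e : D ≃ D') {σ α : Perm D} {σ' α' : Perm D'} (h1 : ∀ a, e (σ a) = σ' (e a))
    (h2 : ∀ a, e (α a) = α' (e a)) : Def σ α = Def σ' α' := by
  have c1 : cyc σ = cyc σ' := ncl_equiv e fun a b => by
    change σ a = b ↔ σ' (e a) = e b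
    rw [← h1, e.apply_eq_iff_eq]
  have c2 : cyc α = cyc α' := ncl_equiv e fun a b => by
    change α a = b ↔ α' (e a) = e b
    rw [← h2, e.apply_eq_iff_eq]
  have c3 : cyc (σ * α) = cyc (σ' * α') := ncl_equiv e fun a b => by
    change σ (α a) = b ↔ σ' (α' (e a)) = e b
    rw [← h2, ← h1, e.apply_eq_iff_eq]
  have c4 : comp σ α = comp σ' α' := ncl_equiv e fun a b => by
    change (σ a = b ∨ α a = b) ↔ (σ' (e a) = e b ∨ α' (e a) = e b)
    rw [← h2, ← h1, e.apply_eq_iff_eq, e.apply_eq_iff_eq]
  have c5 : Nat.card D = Nat.card D' := Nat.card_congr e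
  unfold Def
  rw [c1, c2, c3, c4, c5]

end congr

/-- isolate all dead darts -/
theorem isolate [Finite D] {α : Perm D} (hinv : ∀ x, α (α x) = x) :
    ∀ σ : Perm D, Def σ α = 0 → ∃ π : Perm D, Def π α = 0 ∧ (∀ e, α e = e → π e = e) ∧
      ∀ a b, α a ≠ a → α b ≠ b → (π.SameCycle a b ↔ σ.SameCycle a b) := by
  classical
  have : Fintype D := Fintype.ofFinite D
  suffices H : ∀ n : ℕ, ∀ σ : Perm D,
      (Finset.univ.filter (fun e => α e = e ∧ σ e ≠ e)).card = n → Def σ α = 0 →
      ∃ π : Perm D, Def π α = 0 ∧ (∀ e, α e = e → π e = e) ∧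
        ∀ a b, α a ≠ a → α b ≠ b → (π.SameCycle a b ↔ σ.SameCycle a b) from
    fun σ h => H _ σ rfl h
  intro n
  induction n using Nat.strong_induction_on with
  | _ n ih =>
    intro σ hn hD
    by_cases hall : ∀ e, α e = e → σ e = e
    · exact ⟨σ, hD, hall, fun _ _ _ _ => Iff.rfl⟩
    · push Not at hall
      obtain ⟨e, he, hse⟩ := hall
      set a := σ⁻¹ e with ha
      have hσa : σ a = e := by rw [ha]; exact σ.apply_symm_apply e
      have hae : a ≠ e := fun h => hse (by rw [h] at hσa; exact hσa)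
      have hsc : σ.SameCycle a e := by
        rw [← hσa]
        exact Perm.sameCycle_apply_right.2 (Perm.SameCycle.refl _ _)
      have hface : (σ * α).SameCycle (α a) (α e) := by
        rw [he]
        have : (σ * α) (α a) = e := by rw [Perm.mul_apply, hinv, hσa]
        conv_rhs => rw [← this]
        exact Perm.sameCycle_apply_right.2 (Perm.SameCycle.refl _ _)
      have hD' := (not_conn_split hinv hae hsc hface hD).2
      set ρ := σ * swap a e with hρ
      have hρe : ρ e = e := by rw [hρ, Perm.mul_apply, swap_apply_right, hσa]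
      have hnot : ¬ ρ.SameCycle a e := fun h => hae (h.eq_of_right hρe)
      have hback : σ = ρ * swap a e := by rw [hρ, swap_cancel]
      have hfix : ∀ x, σ x = x → ρ x = x := by
        intro x hx
        have hxe : x ≠ e := fun h => hse (h ▸ hx)
        have hxa : x ≠ a := by
          intro h
          rw [h, hσa] at hx
          exact hae hx.symm
        rw [hρ, swap_apply_ne σ hxa hxe, hx]
      have hcard : (Finset.univ.filter (fun e => α e = e ∧ ρ e ≠ e)).card < n := by
        rw [← hn]
        refine Finset.card_lt_card ⟨?_, ?_⟩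
        · intro x hx
          rw [Finset.mem_filter] at hx ⊢
          exact ⟨hx.1, hx.2.1, fun h => hx.2.2 (hfix x h)⟩
        · intro hsub
          have : e ∈ Finset.univ.filter (fun e => α e = e ∧ σ e ≠ e) := by
            rw [Finset.mem_filter]; exact ⟨Finset.mem_univ _, he, hse⟩
          have := hsub this
          rw [Finset.mem_filter] at this
          exact this.2.2 hρe
      obtain ⟨π, h1, h2, h3⟩ := ih _ hcard ρ rfl hD'
      refine ⟨π, h1, h2, ?_⟩
      intro u v hu hv
      rw [h3 u v hu hv]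
      have hue : u ≠ e := fun h => hu (h ▸ he)
      have hve : v ≠ e := fun h => hv (h ▸ he)
      conv_rhs => rw [hback]
      rw [sameCycle_mul_swap_iff hnot]
      constructor
      · exact Or.inl
      · rintro (h | ⟨h4, h5⟩)
        · exact h
        · have k1 : ρ.SameCycle u a := h4.resolve_right fun h => hue (h.eq_of_right hρe)
          have k2 : ρ.SameCycle v a := h5.resolve_right fun h => hve (h.eq_of_right hρe)
          exact k1.trans k2.symm

/-- remove all dead darts -/
theorem LMap.removeDead {V : Type} (M : LMap V) :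
    ∃ M' : LMap V, (∀ d, M'.α d ≠ d) ∧ ∀ u v, M'.E u v ↔ M.E u v := by
  classical
  obtain ⟨π, h1, h2, h3⟩ := isolate M.inv M.σ M.planar
  let L : M.D → Prop := fun d => M.α d ≠ d
  have hα : ∀ d, L (M.α d) ↔ L d := by
    intro d
    change M.α (M.α d) ≠ M.α d ↔ M.α d ≠ d
    rw [M.inv]
    exact ⟨fun h h' => h h'.symm, fun h h' => h h'.symm⟩
  have hπ : ∀ d, L (π d) ↔ L d := by
    intro d
    constructor
    · intro h h'
      rw [h2 d h'] at h
      exact h h'
    · intro h h'
      have h4 := h2 _ h'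
      have : π d = d := π.injective h4
      rw [this] at h'
      exact h h'
  let πL : Perm {d // L d} := π.subtypePerm hπ
  let αL : Perm {d // L d} := M.α.subtypePerm hα
  have key : Def π M.α = Def πL αL := by
    have e : M.D ≃ {d // L d} ⊕ {d // ¬ L d} := (Equiv.sumCompl L).symm
    have h5 : Def (Perm.sumCongr πL (1 : Perm {d // ¬ L d}))
        (Perm.sumCongr αL (1 : Perm {d // ¬ L d})) = Def π M.α := by
      refine Def_equiv (Equiv.sumCompl L) ?_ ?_
      · rintro (⟨d, hd⟩ | ⟨d, hd⟩)
        · rfl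
        · change d = π d
          rw [h2 d (not_not.1 hd)]
      · rintro (⟨d, hd⟩ | ⟨d, hd⟩)
        · rfl
        · change d = M.α d
          exact (not_not.1 hd).symm
    rw [← h5, Def_sumCongr, Def_one, add_zero]
  have hpow : ∀ (n : ℤ) (x : {d // L d}), ((πL ^ n) x : M.D) = (π ^ n) x.1 := by
    intro n x
    rw [Perm.subtypePerm_zpow]
    rfl
  refine ⟨⟨{d // L d}, πL, αL, ?_, fun d => M.vert d.1, ?_, ?_⟩, ?_, ?_⟩
  · rintro ⟨d, hd⟩
    exact Subtype.ext (M.inv d)
  · rintro ⟨a, ha⟩ ⟨b, hb⟩
    rw [M.same, ← h3 a b ha hb]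
    constructor
    · rintro ⟨n, hn⟩
      refine ⟨n, Subtype.ext ?_⟩
      rw [hpow]; exact hn
    · rintro ⟨n, hn⟩
      refine ⟨n, ?_⟩
      have := congrArg Subtype.val hn
      rwa [hpow] at this
  · rw [← key, h1]
  · rintro ⟨d, hd⟩ h
    exact hd (congrArg Subtype.val h)
  · intro u v
    constructor
    · rintro ⟨⟨d, hd⟩, h4, h5, h6⟩
      exact ⟨d, hd, h5, h6⟩
    · rintro ⟨d, h4, h5, h6⟩
      refine ⟨⟨d, h4⟩, ?_, h5, h6⟩
      intro h
      exact h4 (congrArg Subtype.val h)

end Pool.H96.W
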