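import Mathlib

set_option autoImplicit false

/-!
# Maps with dead darts (block W of MP_c9fc14_co)

A map is a finite type `D` of darts with a permutation `σ` (its cycles are the vertices)
and an involution `α` (its 2-cycles are the edges; a fixed point is a *dead dart*, a mark in
a corner).  Faces are the cycles of `σ * α`.
-/

namespace Pool.H96.W

open Equiv Relation

/-- number of classes of the equivalence relation generated by `r` -/
noncomputable def ncl {D : Type} (r : D → D → Prop) : ℕ := Nat.card (Quot r)

/-- graph of a permutation -/
def Gr {D : Type} (π : Perm D) : D → D → Prop := fun a b => π a = b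

/-- number of cycles, fixed points included -/
noncomputable def cyc {D : Type} (π : Perm D) : ℕ := ncl (Gr π)

/-- union of the graphs of `σ` and `α` -/
def Gen {D : Type} (σ α : Perm D) : D → D → Prop := fun a b => σ a = b ∨ α a = b

/-- number of components -/
noncomputable def comp {D : Type} (σ α : Perm D) : ℕ := ncl (Gen σ α)

/-- connectivity in the map -/
def Conn {D : Type} (σ α : Perm D) (a b : D) : Prop := EqvGen (Gen σ α) a b

/-- twice the genus -/
noncomputable def Def {D : Type} (σ α : Perm D) : ℤ :=
  (Nat.card D : ℤ) + 2 * comp σ α - cyc σ - cyc α - cyc (σ * α)

end Pool.H96.W
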