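import Pool.Agent.H96.W.Hub2

set_option autoImplicit false

/-! # face lemmas -/

namespace Pool.H96.W

open Equiv Relation

variable {W V : Type}

/-- connectivity in the graph lifts to the darts -/
theorem lift_conn {M : LMap W} {G : SimpleGraph V} {T : Set V} (hT : (G.induce T).Preconnected)
    (f : V → W) (hE : ∀ a ∈ T, ∀ b ∈ T, G.Adj a b → M.E (f a) (f b))
    {R : M.D → M.D → Prop} (hR : Equivalence R)
    (h1 : ∀ a b, ∀ t ∈ T, M.vert a = f t → M.vert b = f t → R a b) (h2 : ∀ a, R a (M.α a))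
    {a b : M.D} {s t : V} (hs : s ∈ T) (ht : t ∈ T) (ha : M.vert a = f s) (hb : M.vert b = f t) :
    R a b := by
  have key : ∀ (s t : T), (G.induce T).Reachable s t → ∀ a b : M.D, M.vert a = f s →
      M.vert b = f t → R a b := by
    rintro s t ⟨w⟩
    induction w with
    | nil => intro a b ha hb; exact h1 a b _ (Subtype.property _) ha hb
    | cons hadj _ ih =>
      intro a b ha hb
      obtain ⟨d, -, h3, h4⟩ := hE _ (Subtype.property _) _ (Subtype.property _) hadj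
      refine hR.trans (h1 a d _ (Subtype.property _) ha h3) (hR.trans (h2 d) ?_)
      exact ih _ _ h4 hb
  exact key ⟨s, hs⟩ ⟨t, ht⟩ (hT _ _) a b ha hb

/-- a vertex occurs at most once on a face with live darts, if removing it leaves a connected graph -/
theorem face_inj (M : LMap W) {a b : M.D} (hv : M.vert a = M.vert b)
    (hface : M.ψ.SameCycle a b)
    (hconn : ∀ R : M.D → M.D → Prop, Equivalence R →
      (∀ x y, M.vert x = M.vert y → M.vert x ≠ M.vert a → R x y) → (∀ x, R x (M.α x)) →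
      R (M.α (M.σ a)) (M.α (M.σ b))) : a = b := by
  by_contra hab
  have hs : M.σ.SameCycle a b := (M.same a b).1 hv
  have hf : (M.σ * M.α).SameCycle (M.α a) (M.α b) := (face_iff_corner M.inv a b).1 hface
  refine (not_conn_split M.inv hab hs hf M.planar).1 ?_
  have hnot := not_sameCycle_mul_swap hab hs
  have hback : M.σ = M.σ * swap a b * swap a b := (swap_cancel _ _ _).symm
  have hR := hconn (Conn (M.σ * swap a b) M.α) (conn_equivalence _ _) ?_ (fun x => Conn.of_alpha x)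
  · have e1 : (M.σ * swap a b) a = M.σ b := by rw [Perm.mul_apply, swap_apply_left]
    have e2 : (M.σ * swap a b) b = M.σ a := by rw [Perm.mul_apply, swap_apply_right]
    have c1 : Conn (M.σ * swap a b) M.α a (M.σ b) := by rw [← e1]; exact Conn.of_sigma a
    have c2 : Conn (M.σ * swap a b) M.α b (M.σ a) := by rw [← e2]; exact Conn.of_sigma b
    exact c1.trans ((Conn.of_alpha _).trans (hR.symm.trans ((Conn.of_alpha _).symm.trans c2.symm)))
  · intro x y hxy hx
    refine Conn.of_sameCycle ?_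
    have h1 : M.σ.SameCycle x y := (M.same _ _).1 hxy
    rw [hback, sameCycle_mul_swap_iff hnot] at h1
    rcases h1 with h1 | ⟨h1, -⟩
    · exact h1
    · exfalso
      -- then `x` is at the vertex of `a`
      have h3 : M.σ.SameCycle x a := by
        rw [hback, sameCycle_mul_swap_iff hnot]
        exact Or.inr ⟨h1, Or.inl (Perm.SameCycle.refl _ _)⟩
      exact hx ((M.same _ _).2 h3)

/-- the involution with the edges at `v₀` killed, except a given set -/
theorem same_face (M : LMap W) (v₀ : W) (hloop : ∀ d, M.α d ≠ d → M.vert (M.α d) ≠ M.vert d)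
    (hP : ∀ d, d ∈ {d | M.vert d ≠ v₀ ∧ M.vert (M.α d) ≠ v₀} →
      M.α d ∈ {d | M.vert d ≠ v₀ ∧ M.vert (M.α d) ≠ v₀})
    {d₁ d₂ : M.D} (h1 : M.vert d₁ = v₀) (h2 : M.vert d₂ = v₀) (l1 : M.α d₁ ≠ d₁)
    (l2 : M.α d₂ ≠ d₂)
    (hconn : Conn M.σ (M.kill _ hP).α (M.α d₁) (M.α d₂)) :
    (M.kill _ hP).ψ.SameCycle (M.α d₁) (M.α d₂) := by
  set P : Set M.D := {d | M.vert d ≠ v₀ ∧ M.vert (M.α d) ≠ v₀} with hPdef
  set α₀ : Perm M.D := (M.kill P hP).α with hα₀
  have k1 : ∀ d, d ∈ P → α₀ d = M.α d := fun d h => M.kill_α P hP d h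
  have k2 : ∀ d, d ∉ P → α₀ d = d := fun d h => M.kill_α' P hP d h
  have inv0 : ∀ d, α₀ (α₀ d) = d := (M.kill P hP).inv
  have n1 : d₁ ∉ P := fun h => h.1 h1
  have n2 : d₂ ∉ P := fun h => h.1 h2
  have n1' : M.α d₁ ∉ P := fun h => h.2 (by rw [M.inv]; exact h1)
  have n2' : M.α d₂ ∉ P := fun h => h.2 (by rw [M.inv]; exact h2)
  have v1' : M.vert (M.α d₁) ≠ v₀ := by rw [← h1]; exact hloop d₁ l1
  have v2' : M.vert (M.α d₂) ≠ v₀ := by rw [← h2]; exact hloop d₂ l2
  -- faces at `v₀` after killing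
  have hv0 : ∀ x y, Conn M.σ α₀ x y → (M.vert x = v₀ ↔ M.vert y = v₀) := by
    intro x y hxy
    refine eqvGen_le (s := fun x y => M.vert x = v₀ ↔ M.vert y = v₀) ?_ ?_ hxy
    · exact ⟨fun _ => Iff.rfl, fun h => h.symm, fun h h' => h.trans h'⟩
    · rintro u v (huv | huv)
      · rw [← huv, M.vert_σ]
      · by_cases hu : u ∈ P
        · rw [k1 u hu] at huv
          rw [← huv]
          exact ⟨fun h => absurd h hu.1, fun h => absurd h hu.2⟩
        · rw [k2 u hu] at huv; rw [huv]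
  by_cases hd : d₁ = d₂
  · subst hd; exact Perm.SameCycle.refl _ _
  have hd' : M.α d₁ ≠ M.α d₂ := fun h => hd (M.α.injective h)
  have ne12 : d₁ ≠ M.α d₂ := fun h => v2' (by rw [← h]; exact h1)
  have ne21 : d₂ ≠ M.α d₁ := fun h => v1' (by rw [← h]; exact h2)
  set α₁ : Perm M.D := α₀ * swap d₁ (M.α d₁) with hα₁
  have a1 : α₀ d₁ = d₁ := k2 _ n1
  have a1' : α₀ (M.α d₁) = M.α d₁ := k2 _ n1'
  have a2 : α₀ d₂ = d₂ := k2 _ n2
  have a2' : α₀ (M.α d₂) = M.α d₂ := k2 _ n2'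
  have b2 : α₁ d₂ = d₂ := by
    rw [hα₁, swap_apply_ne α₀ (Ne.symm hd) ne21, a2]
  have b2' : α₁ (M.α d₂) = M.α d₂ := by
    rw [hα₁, swap_apply_ne α₀ ne12.symm hd'.symm, a2']
  set α₂ : Perm M.D := α₁ * swap d₂ (M.α d₂) with hα₂
  -- `α₂` is a sub-involution of `M.α`
  have cases0 : ∀ x, α₀ x = x ∨ α₀ x = M.α x := LMap.killPerm_sub M.α M.inv P hP
  have val1 : α₁ d₁ = M.α d₁ := by rw [hα₁, Perm.mul_apply, swap_apply_left, a1']
  have val1' : α₁ (M.α d₁) = d₁ := by rw [hα₁, Perm.mul_apply, swap_apply_right, a1]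
  have val2 : α₂ d₂ = M.α d₂ := by rw [hα₂, Perm.mul_apply, swap_apply_left, b2']
  have val2' : α₂ (M.α d₂) = d₂ := by rw [hα₂, Perm.mul_apply, swap_apply_right, b2]
  have inv1 : ∀ x, α₁ (α₁ x) = x := by
    intro x
    by_cases hx1 : x = d₁
    · rw [hx1, val1, val1']
    · by_cases hx2 : x = M.α d₁
      · rw [hx2, val1', val1]
      · have h5 : α₁ x = α₀ x := by rw [hα₁, swap_apply_ne α₀ hx1 hx2]
        have h6 : α₀ x ≠ d₁ := fun h => hx1 (by rw [← inv0 x, h, a1])
        have h7 : α₀ x ≠ M.α d₁ := fun h => hx2 (by rw [← inv0 x, h, a1'])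
        rw [h5, hα₁, swap_apply_ne α₀ h6 h7, inv0]
  have sub1 : Sub α₁ M.α := by
    intro x
    by_cases hx1 : x = d₁
    · right; rw [hx1, val1]
    · by_cases hx2 : x = M.α d₁
      · right; rw [hx2, val1', M.inv]
      · rw [hα₁, swap_apply_ne α₀ hx1 hx2]; exact cases0 x
  have inv2 : ∀ x, α₂ (α₂ x) = x := by
    intro x
    by_cases hx1 : x = d₂
    · rw [hx1, val2, val2']
    · by_cases hx2 : x = M.α d₂
      · rw [hx2, val2', val2]
      · have h5 : α₂ x = α₁ x := by rw [hα₂, swap_apply_ne α₁ hx1 hx2]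
        have h6 : α₁ x ≠ d₂ := fun h => hx1 (by rw [← inv1 x, h, b2])
        have h7 : α₁ x ≠ M.α d₂ := fun h => hx2 (by rw [← inv1 x, h, b2'])
        rw [h5, hα₂, swap_apply_ne α₁ h6 h7, inv1]
  have sub2 : Sub α₂ M.α := by
    intro x
    by_cases hx1 : x = d₂
    · right; rw [hx1, val2]
    · by_cases hx2 : x = M.α d₂
      · right; rw [hx2, val2', M.inv]
      · rw [hα₂, swap_apply_ne α₁ hx1 hx2]; exact sub1 x
  have hD2 : Def M.σ α₂ = 0 := Def_sub M.inv inv2 sub2 M.planar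
  -- connectivity before the last step
  have hc : Conn M.σ α₁ d₂ (M.α d₂) := by
    have c1 : Conn M.σ α₁ d₂ d₁ := Conn.of_sameCycle ((M.same _ _).1 (by rw [h1, h2]))
    have c2 : Conn M.σ α₁ d₁ (M.α d₁) := by
      have := Conn.of_alpha (σ := M.σ) (α := α₁) d₁
      rwa [val1] at this
    have c3 : Conn M.σ α₁ (M.α d₁) (M.α d₂) := by
      refine Conn.le (fun x => Conn.of_sigma x) ?_ hconn
      intro x
      by_cases hx1 : x = d₁
      · rw [hx1]
        change Conn M.σ α₁ d₁ (α₀ d₁)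
        rw [a1]; exact Conn.refl _ _ _
      · by_cases hx2 : x = M.α d₁
        · rw [hx2]
          change Conn M.σ α₁ (M.α d₁) (α₀ (M.α d₁))
          rw [a1']; exact Conn.refl _ _ _
        · have h5 : α₁ x = α₀ x := by rw [hα₁, swap_apply_ne α₀ hx1 hx2]
          change Conn M.σ α₁ x (α₀ x)
          rw [← h5]; exact Conn.of_alpha x
    exact c1.trans (c2.trans c3)
  have hf1 : (M.σ * α₁).SameCycle d₂ (M.α d₂) := face_of_planar b2 b2' inv1 hD2 hc
  have hf0 : ¬ (M.σ * α₀).SameCycle d₁ (M.α d₁) := by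
    intro h
    exact v1' ((hv0 _ _ (Conn.of_face h)).1 h1)
  rw [hα₁, ← mul_assoc, sameCycle_mul_swap_iff hf0] at hf1
  have goal0 : (M.σ * α₀).SameCycle (M.α d₂) (M.α d₁) := by
    rcases hf1 with h | ⟨-, h⟩
    · exact absurd ((hv0 _ _ (Conn.of_face h)).1 h2) v2'
    · rcases h with h | h
      · exact absurd ((hv0 _ _ (Conn.of_face h)).2 h1) v2'
      · exact h
  have := (face_iff_corner (σ := M.σ) (α := α₀) inv0 (M.α d₁) (M.α d₂)).2
  refine this ?_
  rw [a1', a2']
  exact goal0.symm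

end Pool.H96.W
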