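import Pool.Agent.H96.W.Closure

set_option autoImplicit false

/-! # the hub lemma: inserting vertices into a face -/

namespace Pool.H96.W

open Equiv Relation

variable {W : Type}

/-- the corner permutation -/
def LMap.ψ (M : LMap W) : Perm M.D := M.α * M.σ

theorem LMap.ψ_apply (M : LMap W) (a : M.D) : M.ψ a = M.α (M.σ a) := rfl

/-- `SameCycle` for faces and for corners -/
theorem face_iff_corner {D : Type} {σ α : Perm D} (hinv : ∀ x, α (α x) = x) (a b : D) :
    (α * σ).SameCycle a b ↔ (σ * α).SameCycle (α a) (α b) := by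
  have h1 : α⁻¹ = α := by
    ext x
    rw [Perm.inv_eq_iff_eq]
    exact (hinv x).symm
  have h2 : α * σ = α * (σ * α) * α⁻¹ := by
    rw [mul_assoc, mul_assoc, mul_inv_cancel, mul_one]
  rw [h2, Perm.sameCycle_conj, h1]

/-- a face given by a corner: period `N`, vertices `v` -/
structure Face (M : LMap W) (p : M.D) (N : ℕ) (v : ℕ → W) : Prop where
  pos : 0 < N
  per : (M.ψ ^ N) p = p
  min : ∀ i, 0 < i → i < N → (M.ψ ^ i) p ≠ p
  vert : ∀ i, i ≤ N → M.vert ((M.ψ ^ i) p) = v i

section insert

variable {D : Type}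

/-- isolated points -/
theorem conn_fixed {σ α : Perm D} {a b : D} (h1 : σ a = a) (h2 : α a = a) (h : Conn σ α a b) :
    b = a := by
  have key := eqvGen_le (s := fun x y : D => x = a ↔ y = a) ?_ ?_ h
  · exact key.1 rfl
  · exact ⟨fun _ => Iff.rfl, fun h => h.symm, fun h h' => h.trans h'⟩
  · rintro x y (hxy | hxy)
    · constructor
      · intro hx; rw [← hxy, hx, h1]
      · intro hy; rw [hy] at hxy; exact σ.injective (by rw [hxy, h1])
    · constructor
      · intro hx; rw [← hxy, hx, h2]
      · intro hy; rw [hy] at hxy; exact α.injective (by rw [hxy, h2])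

end insert

/-- new vertex joined to a corner -/
theorem pendant [DecidableEq W] (M : LMap W) (q : M.D) (N : ℕ) (v : ℕ → W) (hF : Face M q N v) (x : W)
    (hx : ∀ d, M.vert d ≠ x) :
    ∃ (M' : LMap W) (p : M'.D), Face M' p (N + 2)
      (fun i => if i = 0 ∨ i = N + 2 then x else v (i - 1)) ∧
      (∀ a b, M.E a b → M'.E a b) ∧ M'.E x (v 0) ∧
      (∀ d, M'.vert d = x ∨ ∃ d', M'.vert d = M.vert d') := by
  classical
  let σ₀ : Perm (M.D ⊕ Bool) := Perm.sumCongr M.σ 1
  let α₀ : Perm (M.D ⊕ Bool) := Perm.sumCongr M.α 1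
  have hα0 : ∀ z, α₀ (α₀ z) = z := by
    rintro (d | d)
    · exact congrArg Sum.inl (M.inv d)
    · rfl
  have hD0 : Def σ₀ α₀ = 0 := by
    rw [Def_sumCongr, M.planar, Def_one]; rfl
  have hc0 : ¬ Conn σ₀ α₀ (Sum.inl q) (Sum.inr true) := not_conn_sum
  let σ₁ : Perm (M.D ⊕ Bool) := σ₀ * swap (Sum.inl q) (Sum.inr true)
  have hD1 : Def σ₁ α₀ = 0 := by rw [Def_merge_comp hα0 hc0, hD0]
  have hσe : σ₁ (Sum.inr false) = Sum.inr false := by
    change σ₀ (swap (Sum.inl q) (Sum.inr true) (Sum.inr false)) = Sum.inr false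
    rw [swap_apply_of_ne_of_ne (by simp) (by simp)]
    rfl
  have hσn : σ₁ (Sum.inr true) = Sum.inl (M.σ q) := by
    change σ₀ (swap (Sum.inl q) (Sum.inr true) (Sum.inr true)) = Sum.inl (M.σ q)
    rw [swap_apply_right]
    rfl
  have hσq : σ₁ (Sum.inl q) = Sum.inr true := by
    change σ₀ (swap (Sum.inl q) (Sum.inr true) (Sum.inl q)) = Sum.inr true
    rw [swap_apply_left]
    rfl
  have hσd : ∀ d, d ≠ q → σ₁ (Sum.inl d) = Sum.inl (M.σ d) := by
    intro d hd
    change σ₀ (swap (Sum.inl q) (Sum.inr true) (Sum.inl d)) = Sum.inl (M.σ d)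
    rw [swap_apply_of_ne_of_ne (by simpa using hd) (by simp)]
    rfl
  let α₁ : Perm (M.D ⊕ Bool) := α₀ * swap (Sum.inr false) (Sum.inr true)
  have hc1 : ¬ Conn σ₁ α₀ (Sum.inr false) (Sum.inr true) := by
    intro h
    have := conn_fixed hσe rfl h
    simp at this
  have hD2 : Def σ₁ α₁ = 0 := by rw [Def_step_comp rfl rfl hc1, hD1]
  have hαe : α₁ (Sum.inr false) = Sum.inr true := by
    change α₀ (swap (Sum.inr false) (Sum.inr true) (Sum.inr false)) = Sum.inr true
    rw [swap_apply_left]; rfl
  have hαn : α₁ (Sum.inr true) = Sum.inr false := by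
    change α₀ (swap (Sum.inr false) (Sum.inr true) (Sum.inr true)) = Sum.inr false
    rw [swap_apply_right]; rfl
  have hαd : ∀ d, α₁ (Sum.inl d) = Sum.inl (M.α d) := by
    intro d
    change α₀ (swap (Sum.inr false) (Sum.inr true) (Sum.inl d)) = Sum.inl (M.α d)
    rw [swap_apply_of_ne_of_ne (by simp) (by simp)]; rfl
  have hα1 : ∀ z, α₁ (α₁ z) = z := by
    rintro (d | (_ | _))
    · rw [hαd, hαd, M.inv]
    · rw [hαe, hαn]
    · rw [hαn, hαe]
  let vt : M.D ⊕ Bool → W := Sum.elim M.vert (fun b => if b then M.vert q else x)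
  have hsame : ∀ a b, vt a = vt b ↔ σ₁.SameCycle a b := by
    have hns : ¬ σ₀.SameCycle (Sum.inl q) (Sum.inr true) := fun h => hc0 (Conn.of_sameCycle h)
    have hfix0 : ∀ (b : Bool) z, σ₀.SameCycle (Sum.inr b) z → z = Sum.inr b := by
      intro b z hz
      exact (hz.eq_of_left rfl).symm
    intro a b
    change _ ↔ (σ₀ * swap (Sum.inl q) (Sum.inr true)).SameCycle a b
    rw [sameCycle_mul_swap_iff hns]
    rcases a with a | (_ | _) <;> rcases b with b | (_ | _)
    · -- inl inl
      change M.vert a = M.vert b ↔ _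
      rw [M.same, sameCycle_sumCongr_inl]
      constructor
      · exact Or.inl
      · rintro (h | ⟨h, h'⟩)
        · exact h
        · have k : ∀ z : M.D, (σ₀.SameCycle (Sum.inl z) (Sum.inl q) ∨
              σ₀.SameCycle (Sum.inl z) (Sum.inr true)) → M.σ.SameCycle z q := by
            intro z hz
            rcases hz with hz | hz
            · exact sameCycle_sumCongr_inl.1 hz
            · have := hfix0 true _ hz.symm
              simp at this
          exact (k a h).trans (k b h').symm
    · -- inl, false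
      change M.vert a = x ↔ _
      constructor
      · intro h; exact absurd h (hx a)
      · rintro (h | ⟨-, h⟩)
        · have := hfix0 _ _ h.symm; simp at this
        · rcases h with h | h
          · have := hfix0 _ _ h; simp at this
          · have := hfix0 _ _ h; simp at this
    · -- inl, true
      change M.vert a = M.vert q ↔ _
      constructor
      · intro h
        right
        exact ⟨Or.inl (sameCycle_sumCongr_inl.2 ((M.same _ _).1 h)), Or.inr (Perm.SameCycle.refl _ _)⟩
      · rintro (h | ⟨h, -⟩)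
        · have := hfix0 _ _ h.symm; simp at this
        · rcases h with h | h
          · exact (M.same _ _).2 (sameCycle_sumCongr_inl.1 h)
          · have := hfix0 _ _ h.symm; simp at this
    · -- false, inl
      change x = M.vert b ↔ _
      constructor
      · intro h; exact absurd h.symm (hx b)
      · rintro (h | ⟨h, -⟩)
        · have := hfix0 _ _ h; simp at this
        · rcases h with h | h
          · have := hfix0 _ _ h; simp at this
          · have := hfix0 _ _ h; simp at this
    · exact ⟨fun _ => Or.inl (Perm.SameCycle.refl _ _), fun _ => rfl⟩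
    · change x = M.vert q ↔ _
      constructor
      · intro h; exact absurd h.symm (hx q)
      · rintro (h | ⟨h, -⟩)
        · have := hfix0 _ _ h; simp at this
        · rcases h with h | h
          · have := hfix0 _ _ h; simp at this
          · have := hfix0 _ _ h; simp at this
    · -- true, inl
      change M.vert q = M.vert b ↔ _
      constructor
      · intro h
        right
        exact ⟨Or.inr (Perm.SameCycle.refl _ _),
          Or.inl (sameCycle_sumCongr_inl.2 ((M.same _ _).1 h.symm))⟩
      · rintro (h | ⟨-, h⟩)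
        · have := hfix0 _ _ h; simp at this
        · rcases h with h | h
          · exact ((M.same _ _).2 (sameCycle_sumCongr_inl.1 h)).symm
          · have := hfix0 _ _ h.symm; simp at this
    · change M.vert q = x ↔ _
      constructor
      · intro h; exact absurd h (hx q)
      · rintro (h | ⟨-, h⟩)
        · have := hfix0 _ _ h; simp at this
        · rcases h with h | h
          · have := hfix0 _ _ h; simp at this
          · have := hfix0 _ _ h; simp at this
    · exact ⟨fun _ => Or.inl (Perm.SameCycle.refl _ _), fun _ => rfl⟩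
  let M' : LMap W := ⟨M.D ⊕ Bool, σ₁, α₁, hα1, vt, hsame, hD2⟩
  have ψe : M'.ψ (Sum.inr false) = Sum.inr true := by
    change α₁ (σ₁ (Sum.inr false)) = _
    rw [hσe, hαe]
  have ψn : M'.ψ (Sum.inr true) = Sum.inl (M.ψ q) := by
    change α₁ (σ₁ (Sum.inr true)) = _
    rw [hσn, hαd]; rfl
  have ψq : M'.ψ (Sum.inl q) = Sum.inr false := by
    change α₁ (σ₁ (Sum.inl q)) = _
    rw [hσq, hαn]
  have ψd : ∀ d, d ≠ q → M'.ψ (Sum.inl d) = Sum.inl (M.ψ d) := by
    intro d hd
    change α₁ (σ₁ (Sum.inl d)) = _
    rw [hσd d hd, hαd]; rfl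
  have walk : ∀ i, 1 ≤ i → i ≤ N → (M'.ψ ^ (i + 1)) (Sum.inr false) = Sum.inl ((M.ψ ^ i) q) := by
    intro i
    induction i with
    | zero => intro h; omega
    | succ i ih =>
      intro _ hi
      rcases Nat.eq_zero_or_pos i with rfl | hpos
      · rw [pow_succ', Perm.mul_apply, pow_one, ψe, ψn, zero_add, pow_one]
      · rw [pow_succ', Perm.mul_apply, ih (by omega) (by omega), ψd _ (hF.min i hpos (by omega)),
          pow_succ', Perm.mul_apply]
  refine ⟨M', Sum.inr false, ⟨by omega, ?_, ?_, ?_⟩, ?_, ?_, ?_⟩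
  · rw [show N + 2 = (N + 1) + 1 from rfl, pow_succ', Perm.mul_apply, walk N hF.pos le_rfl, hF.per, ψq]
  · intro i hi hi'
    rcases Nat.lt_or_ge i 2 with h2 | h2
    · have : i = 1 := by omega
      subst this
      rw [pow_one, ψe]
      intro h
      exact Bool.noConfusion (Sum.inr.inj h)
    · obtain ⟨j, rfl⟩ : ∃ j, i = j + 1 := ⟨i - 1, by omega⟩
      rw [walk j (by omega) (by omega)]
      intro h
      cases h
  · intro i hi
    by_cases h0 : i = 0
    · subst h0
      simp only [pow_zero, true_or, if_true]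
      rfl
    · by_cases h1 : i = N + 2
      · subst h1
        rw [show N + 2 = (N + 1) + 1 from rfl, pow_succ', Perm.mul_apply, walk N hF.pos le_rfl,
          hF.per, ψq]
        simp only [or_true, if_true]
        rfl
      · rw [if_neg (by tauto)]
        rcases Nat.lt_or_ge i 2 with h2 | h2
        · have : i = 1 := by omega
          subst this
          rw [pow_one, ψe]
          have := hF.vert 0 (Nat.zero_le _)
          rw [pow_zero] at this
          exact this
        · obtain ⟨j, rfl⟩ : ∃ j, i = j + 1 := ⟨i - 1, by omega⟩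
          rw [walk j (by omega) (by omega)]
          exact hF.vert j (by omega)
  · rintro a b ⟨d, h1, h2, h3⟩
    refine ⟨Sum.inl d, ?_, h2, ?_⟩
    · change α₁ (Sum.inl d) ≠ Sum.inl d
      rw [hαd]; intro h; exact h1 (Sum.inl.inj h)
    · change vt (α₁ (Sum.inl d)) = b
      rw [hαd]; exact h3
  · refine ⟨Sum.inr false, ?_, rfl, ?_⟩
    · change α₁ (Sum.inr false) ≠ Sum.inr false
      rw [hαe]; simp
    · change vt (α₁ (Sum.inr false)) = v 0
      rw [hαe]
      have := hF.vert 0 (Nat.zero_le _)
      rw [pow_zero] at this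
      exact this
  · rintro (d | (_ | _))
    · exact Or.inr ⟨d, rfl⟩
    · exact Or.inl rfl
    · exact Or.inr ⟨q, rfl⟩

end Pool.H96.W
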