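import Pool.Agent.H96.W.Hub

set_option autoImplicit false

namespace Pool.H96.W

open Equiv Relation

variable {W : Type}

/-- an edge between a corner and the second next corner of the same face -/
theorem chord (M : LMap W) (p : M.D) (N : ℕ) (v : ℕ → W) (hF : Face M p N v) (hN : 3 ≤ N) :
    ∃ (M' : LMap W) (p' : M'.D), Face M' p' (N - 1) (fun i => if i = 0 then v 0 else v (i + 1)) ∧
      (∀ a b, M.E a b → M'.E a b) ∧ M'.E (v 0) (v 2) ∧
      (∀ d, ∃ d', M'.vert d = M.vert d') := by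
  classical
  let q : M.D := (M.ψ ^ 2) p
  have hψ1 : M.ψ p ≠ p := by
    have := hF.min 1 (by omega) (by omega)
    rwa [pow_one] at this
  have hpq : q ≠ p := hF.min 2 (by omega) (by omega)
  have hq : q = M.ψ (M.ψ p) := by
    change (M.ψ ^ 2) p = _
    rw [pow_two]; rfl
  have hψq : M.ψ p ≠ q := by
    rw [hq]; intro h; exact hψ1 (M.ψ.injective h).symm
  have hv0 : M.vert p = v 0 := by
    have := hF.vert 0 (Nat.zero_le _)
    rwa [pow_zero] at this
  have hv2 : M.vert q = v 2 := hF.vert 2 (by omega)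
  let σ₀ : Perm (M.D ⊕ Bool) := Perm.sumCongr M.σ 1
  let α₀ : Perm (M.D ⊕ Bool) := Perm.sumCongr M.α 1
  have hα0 : ∀ z, α₀ (α₀ z) = z := by
    rintro (d | d)
    · exact congrArg Sum.inl (M.inv d)
    · rfl
  have hD0 : Def σ₀ α₀ = 0 := by
    rw [Def_sumCongr, M.planar, Def_one]; rfl
  -- first insertion
  have hc0 : ¬ Conn σ₀ α₀ (Sum.inl p) (Sum.inr false) := not_conn_sum
  let σ₁ : Perm (M.D ⊕ Bool) := σ₀ * swap (Sum.inl p) (Sum.inr false)
  have hD1 : Def σ₁ α₀ = 0 := by rw [Def_merge_comp hα0 hc0, hD0]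
  have hσ1t : σ₁ (Sum.inr true) = Sum.inr true := by
    change σ₀ (swap (Sum.inl p) (Sum.inr false) (Sum.inr true)) = Sum.inr true
    rw [swap_apply_of_ne_of_ne (by simp) (by simp)]
    rfl
  -- second insertion
  have hc1 : ¬ Conn σ₁ α₀ (Sum.inl q) (Sum.inr true) := by
    intro h
    have := conn_fixed hσ1t rfl h.symm
    simp at this
  let σ₂ : Perm (M.D ⊕ Bool) := σ₁ * swap (Sum.inl q) (Sum.inr true)
  have hD2 : Def σ₂ α₀ = 0 := by rw [Def_merge_comp hα0 hc1, hD1]
  have hσf : σ₂ (Sum.inr false) = Sum.inl (M.σ p) := by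
    change σ₀ (swap (Sum.inl p) (Sum.inr false) (swap (Sum.inl q) (Sum.inr true) (Sum.inr false))) =
      Sum.inl (M.σ p)
    rw [swap_apply_of_ne_of_ne (a := Sum.inl q) (b := Sum.inr true) (by simp) (by simp),
      swap_apply_right]
    rfl
  have hσt : σ₂ (Sum.inr true) = Sum.inl (M.σ q) := by
    change σ₀ (swap (Sum.inl p) (Sum.inr false) (swap (Sum.inl q) (Sum.inr true) (Sum.inr true))) =
      Sum.inl (M.σ q)
    rw [swap_apply_right, swap_apply_of_ne_of_ne (by simpa using hpq) (by simp)]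
    rfl
  have hσp : σ₂ (Sum.inl p) = Sum.inr false := by
    change σ₀ (swap (Sum.inl p) (Sum.inr false) (swap (Sum.inl q) (Sum.inr true) (Sum.inl p))) =
      Sum.inr false
    rw [swap_apply_of_ne_of_ne (a := Sum.inl q) (b := Sum.inr true) (by simpa using hpq.symm)
      (by simp), swap_apply_left]
    rfl
  have hσq : σ₂ (Sum.inl q) = Sum.inr true := by
    change σ₀ (swap (Sum.inl p) (Sum.inr false) (swap (Sum.inl q) (Sum.inr true) (Sum.inl q))) =
      Sum.inr true
    rw [swap_apply_left, swap_apply_of_ne_of_ne (by simp) (by simp)]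
    rfl
  have hσd : ∀ d, d ≠ p → d ≠ q → σ₂ (Sum.inl d) = Sum.inl (M.σ d) := by
    intro d hd hd'
    change σ₀ (swap (Sum.inl p) (Sum.inr false) (swap (Sum.inl q) (Sum.inr true) (Sum.inl d))) =
      Sum.inl (M.σ d)
    rw [swap_apply_of_ne_of_ne (a := Sum.inl q) (b := Sum.inr true) (by simpa using hd') (by simp),
      swap_apply_of_ne_of_ne (by simpa using hd) (by simp)]
    rfl
  -- the new edge
  let α₁ : Perm (M.D ⊕ Bool) := α₀ * swap (Sum.inr false) (Sum.inr true)
  have hface : (σ₂ * α₀).SameCycle (Sum.inr false) (Sum.inr true) := by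
    have h1 := (face_iff_corner (σ := σ₂) hα0 (Sum.inr false) (Sum.inr true)).1
    refine h1 ?_
    refine ⟨3, ?_⟩
    have e1 : (α₀ * σ₂) (Sum.inr false) = Sum.inl (M.ψ p) := by
      change α₀ (σ₂ (Sum.inr false)) = _
      rw [hσf]; rfl
    have e2 : (α₀ * σ₂) (Sum.inl (M.ψ p)) = Sum.inl q := by
      change α₀ (σ₂ (Sum.inl (M.ψ p))) = _
      rw [hσd _ hψ1 hψq, hq]; rfl
    have e3 : (α₀ * σ₂) (Sum.inl q) = Sum.inr true := by
      change α₀ (σ₂ (Sum.inl q)) = _
      rw [hσq]; rfl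
    have : ((α₀ * σ₂) ^ (3 : ℤ)) (Sum.inr false) =
        (α₀ * σ₂) ((α₀ * σ₂) ((α₀ * σ₂) (Sum.inr false))) := by
      rw [show (3 : ℤ) = ((3 : ℕ) : ℤ) from rfl, zpow_natCast]
      rfl
    rw [this, e1, e2, e3]
  have hD3 : Def σ₂ α₁ = 0 := by
    rw [Def_step_face (by simp) rfl rfl hface, hD2]
  have hαe : α₁ (Sum.inr false) = Sum.inr true := by
    change α₀ (swap (Sum.inr false) (Sum.inr true) (Sum.inr false)) = Sum.inr true
    rw [swap_apply_left]; rfl
  have hαn : α₁ (Sum.inr true) = Sum.inr false := by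
    change α₀ (swap (Sum.inr false) (Sum.inr true) (Sum.inr true)) = Sum.inr false
    rw [swap_apply_right]; rfl
  have hαd : ∀ d, α₁ (Sum.inl d) = Sum.inl (M.α d) := by
    intro d
    change α₀ (swap (Sum.inr false) (Sum.inr true) (Sum.inl d)) = Sum.inl (M.α d)
    rw [swap_apply_of_ne_of_ne (by simp) (by simp)]; rfl
  have hα1 : ∀ z, α₁ (α₁ z) = z := by
    rintro (d | (_ | _))
    · rw [hαd, hαd, M.inv]
    · rw [hαe, hαn]
    · rw [hαn, hαe]
  let g : M.D ⊕ Bool → M.D := Sum.elim id (fun b => if b then q else p)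
  let vt : M.D ⊕ Bool → W := fun z => M.vert (g z)
  have hns0 : ¬ σ₀.SameCycle (Sum.inl p) (Sum.inr false) := fun h => hc0 (Conn.of_sameCycle h)
  have hns1 : ¬ σ₁.SameCycle (Sum.inl q) (Sum.inr true) := fun h => hc1 (Conn.of_sameCycle h)
  have hg : ∀ z, σ₂.SameCycle z (Sum.inl (g z)) := by
    rintro (d | (_ | _))
    · exact Perm.SameCycle.refl _ _
    · change σ₂.SameCycle (Sum.inr false) (Sum.inl p)
      rw [← hσp]
      exact Perm.sameCycle_apply_left.2 (Perm.SameCycle.refl _ _)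
    · change σ₂.SameCycle (Sum.inr true) (Sum.inl q)
      rw [← hσq]
      exact Perm.sameCycle_apply_left.2 (Perm.SameCycle.refl _ _)
  have hll : ∀ a b : M.D, σ₂.SameCycle (Sum.inl a) (Sum.inl b) ↔ M.σ.SameCycle a b := by
    have hfix0 : ∀ (b : Bool) z, σ₀.SameCycle (Sum.inr b) z → z = Sum.inr b := by
      intro b z hz
      exact (hz.eq_of_left rfl).symm
    have h1 : ∀ a b : M.D, σ₁.SameCycle (Sum.inl a) (Sum.inl b) ↔ M.σ.SameCycle a b := by
      intro a b
      change (σ₀ * swap (Sum.inl p) (Sum.inr false)).SameCycle _ _ ↔ _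
      rw [sameCycle_mul_swap_iff hns0, sameCycle_sumCongr_inl]
      constructor
      · rintro (h | ⟨h, h'⟩)
        · exact h
        · have k : ∀ z : M.D, (σ₀.SameCycle (Sum.inl z) (Sum.inl p) ∨
              σ₀.SameCycle (Sum.inl z) (Sum.inr false)) → M.σ.SameCycle z p := by
            intro z hz
            rcases hz with hz | hz
            · exact sameCycle_sumCongr_inl.1 hz
            · have := hfix0 false _ hz.symm
              simp at this
          exact (k a h).trans (k b h').symm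
      · exact Or.inl
    intro a b
    change (σ₁ * swap (Sum.inl q) (Sum.inr true)).SameCycle _ _ ↔ _
    rw [sameCycle_mul_swap_iff hns1, h1]
    constructor
    · rintro (h | ⟨h, h'⟩)
      · exact h
      · have k : ∀ z : M.D, (σ₁.SameCycle (Sum.inl z) (Sum.inl q) ∨
            σ₁.SameCycle (Sum.inl z) (Sum.inr true)) → M.σ.SameCycle z q := by
          intro z hz
          rcases hz with hz | hz
          · exact (h1 _ _).1 hz
          · have := (hz.eq_of_right hσ1t)
            simp at this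
        exact (k a h).trans (k b h').symm
    · exact Or.inl
  have hsame : ∀ a b, vt a = vt b ↔ σ₂.SameCycle a b := by
    intro a b
    change M.vert (g a) = M.vert (g b) ↔ _
    rw [M.same, ← hll]
    constructor
    · intro h; exact (hg a).trans (h.trans (hg b).symm)
    · intro h; exact (hg a).symm.trans (h.trans (hg b))
  let M' : LMap W := ⟨M.D ⊕ Bool, σ₂, α₁, hα1, vt, hsame, hD3⟩
  have ψp : M'.ψ (Sum.inl p) = Sum.inr true := by
    change α₁ (σ₂ (Sum.inl p)) = _
    rw [hσp, hαe]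
  have ψt : M'.ψ (Sum.inr true) = Sum.inl (M.ψ q) := by
    change α₁ (σ₂ (Sum.inr true)) = _
    rw [hσt, hαd]; rfl
  have ψd : ∀ d, d ≠ p → d ≠ q → M'.ψ (Sum.inl d) = Sum.inl (M.ψ d) := by
    intro d hd hd'
    change α₁ (σ₂ (Sum.inl d)) = _
    rw [hσd d hd hd', hαd]; rfl
  have hshift : ∀ i, (M.ψ ^ (i + 2)) p = (M.ψ ^ i) q := by
    intro i
    rw [pow_add, Perm.mul_apply]
  have walk : ∀ i, 1 ≤ i → i ≤ N - 2 → (M'.ψ ^ (i + 1)) (Sum.inl p) = Sum.inl ((M.ψ ^ (i + 2)) p) := by
    intro i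
    induction i with
    | zero => intro h; omega
    | succ i ih =>
      intro _ hi
      rcases Nat.eq_zero_or_pos i with rfl | hpos
      · rw [pow_succ', Perm.mul_apply, zero_add, pow_one, ψp, ψt, hshift, pow_one]
      · rw [pow_succ', Perm.mul_apply, ih (by omega) (by omega), ψd, ← Perm.mul_apply, ← pow_succ']
        · exact hF.min (i + 2) (by omega) (by omega)
        · intro h
          have h2 : (M.ψ ^ 2) ((M.ψ ^ i) p) = (M.ψ ^ 2) p := by
            rw [← Perm.mul_apply, ← pow_add, add_comm]; exact h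
          exact hF.min i hpos (by omega) ((M.ψ ^ 2).injective h2)
  refine ⟨M', Sum.inl p, ⟨by omega, ?_, ?_, ?_⟩, ?_, ?_, ?_⟩
  · obtain ⟨n, rfl⟩ : ∃ n, N = n + 3 := ⟨N - 3, by omega⟩
    have h1 := walk (n + 1) (by omega) (by omega)
    have h2 : (M.ψ ^ (n + 1 + 2)) p = p := hF.per
    rw [h2] at h1
    exact h1
  · intro i hi hi'
    rcases Nat.lt_or_ge i 2 with h2 | h2
    · have : i = 1 := by omega
      subst this
      rw [pow_one, ψp]
      intro h
      cases h
    · obtain ⟨j, rfl⟩ : ∃ j, i = j + 1 := ⟨i - 1, by omega⟩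
      rw [walk j (by omega) (by omega)]
      intro h
      exact hF.min (j + 2) (by omega) (by omega) (Sum.inl.inj h)
  · intro i hi
    rcases Nat.lt_or_ge i 1 with h0 | h0
    · have : i = 0 := by omega
      subst this
      rw [if_pos rfl]
      exact hv0
    · rw [if_neg (by omega)]
      rcases Nat.lt_or_ge i 2 with h2 | h2
      · have : i = 1 := by omega
        subst this
        rw [pow_one, ψp]
        exact hv2
      · obtain ⟨j, rfl⟩ : ∃ j, i = j + 1 := ⟨i - 1, by omega⟩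
        rw [walk j (by omega) (by omega)]
        exact hF.vert (j + 2) (by omega)
  · rintro a b ⟨d, h1, h2, h3⟩
    refine ⟨Sum.inl d, ?_, h2, ?_⟩
    · change α₁ (Sum.inl d) ≠ Sum.inl d
      rw [hαd]; intro h; exact h1 (Sum.inl.inj h)
    · change vt (α₁ (Sum.inl d)) = b
      rw [hαd]; exact h3
  · refine ⟨Sum.inr false, ?_, hv0, ?_⟩
    · change α₁ (Sum.inr false) ≠ Sum.inr false
      rw [hαe]; simp
    · change vt (α₁ (Sum.inr false)) = v 2
      rw [hαe]
      exact hv2
  · rintro d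
    exact ⟨g d, rfl⟩

/-- the hub lemma -/
theorem hub [DecidableEq W] (M : LMap W) (q : M.D) (N : ℕ) (v : ℕ → W) (hF : Face M q N v) (x : W)
    (hx : ∀ d, M.vert d ≠ x) (k : ℕ) (hk : k ≤ N) :
    ∃ (M' : LMap W) (p : M'.D), Face M' p (N + 2 - k)
      (fun i => if i = 0 ∨ i = N + 2 - k then x else v (i - 1 + k)) ∧
      (∀ a b, M.E a b → M'.E a b) ∧ (∀ i ≤ k, M'.E x (v i)) ∧
      (∀ d, M'.vert d = x ∨ ∃ d', M'.vert d = M.vert d') := by
  induction k with
  | zero =>
    obtain ⟨M', p, h1, h2, h3, h4⟩ := pendant M q N v hF x hx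
    refine ⟨M', p, h1, h2, ?_, h4⟩
    intro i hi
    have : i = 0 := by omega
    rw [this]; exact h3
  | succ k ih =>
    obtain ⟨M', p, h1, h2, h3, h4⟩ := ih (by omega)
    obtain ⟨M'', p', k1, k2, k3, k4⟩ := chord M' p _ _ h1 (by omega)
    have e0 : N + 2 - (k + 1) = N + 2 - k - 1 := by omega
    refine ⟨M'', p', ?_, fun a b h => k2 a b (h2 a b h), ?_, ?_⟩
    · rw [e0]
      refine ⟨k1.pos, k1.per, k1.min, ?_⟩
      intro i hi
      rw [k1.vert i hi]
      by_cases h0 : i = 0
      · subst h0; simp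
      · rw [if_neg h0]
        by_cases h5 : i = N + 2 - k - 1
        · rw [if_pos (Or.inr (by omega)), if_pos (Or.inr h5)]
        · rw [if_neg (by omega), if_neg (by omega)]
          congr 1
          omega
    · intro i hi
      rcases Nat.lt_or_ge i (k + 1) with h5 | h5
      · exact k2 _ _ (h3 i (by omega))
      · have : i = k + 1 := by omega
        subst this
        simp only [true_or, if_true] at k3
        rw [if_neg (by omega)] at k3
        rw [show 2 - 1 + k = k + 1 by omega] at k3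
        exact k3
    · intro d
      obtain ⟨d', hd'⟩ := k4 d
      rw [hd']
      exact h4 d'

/-- two hubs in one face -/
theorem two_hubs [DecidableEq W] (M : LMap W) (q : M.D) (N : ℕ) (v : ℕ → W) (hF : Face M q N v)
    (x y : W) (hxy : x ≠ y)
    (hx : ∀ d, M.vert d ≠ x) (hy : ∀ d, M.vert d ≠ y) (k : ℕ) (hk : k ≤ N) :
    ∃ M' : LMap W, (∀ a b, M.E a b → M'.E a b) ∧ M'.E x y ∧ (∀ i ≤ k, M'.E x (v i)) ∧
      (∀ i, k ≤ i → i ≤ N → M'.E y (v i)) := by
  obtain ⟨M₁, p₁, h1, h2, h3, h4⟩ := hub M q N v hF x hx k hk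
  have hy1 : ∀ d, M₁.vert d ≠ y := by
    intro d
    rcases h4 d with h | ⟨d', h⟩
    · rw [h]; exact hxy
    · rw [h]; exact hy d'
  obtain ⟨M₂, p₂, k1, k2, k3, k4⟩ := hub M₁ p₁ _ _ h1 y hy1 (N + 1 - k) (by omega)
  refine ⟨M₂, fun a b h => k2 a b (h2 a b h), ?_, fun i hi => k2 _ _ (h3 i hi), ?_⟩
  · have := k3 0 (Nat.zero_le _)
    simp only [true_or, if_true] at this
    exact M₂.E_symm this
  · intro i hi hi'
    have := k3 (i - k + 1) (by omega)
    rw [if_neg (by omega), show i - k + 1 - 1 + k = i by omega] at this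
    exact this

end Pool.H96.W
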