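import Pool.Agent.H96.W.Merge

set_option autoImplicit false

/-! # labelled planar maps -/

namespace Pool.H96.W

open Equiv Relation

section union

variable {D₁ D₂ : Type}

theorem cyc_sumCongr [Finite D₁] [Finite D₂] (σ₁ : Perm D₁) (σ₂ : Perm D₂) :
    cyc (Perm.sumCongr σ₁ σ₂) = cyc σ₁ + cyc σ₂ := by
  unfold cyc
  rw [← ncl_sum]
  refine ncl_congr fun x y => ?_
  have : Gr (Perm.sumCongr σ₁ σ₂) = Sum.LiftRel (Gr σ₁) (Gr σ₂) := by
    funext x y
    rcases x with x | x <;> rcases y with y | y <;> simp [Gr]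
  rw [this]

theorem comp_sumCongr [Finite D₁] [Finite D₂] (σ₁ α₁ : Perm D₁) (σ₂ α₂ : Perm D₂) :
    comp (Perm.sumCongr σ₁ σ₂) (Perm.sumCongr α₁ α₂) = comp σ₁ α₁ + comp σ₂ α₂ := by
  unfold comp
  rw [← ncl_sum]
  refine ncl_congr fun x y => ?_
  have : Gen (Perm.sumCongr σ₁ σ₂) (Perm.sumCongr α₁ α₂) =
      Sum.LiftRel (Gen σ₁ α₁) (Gen σ₂ α₂) := by
    funext x y
    rcases x with x | x <;> rcases y with y | y <;> simp [Gen]
  rw [this]

theorem Def_sumCongr [Finite D₁] [Finite D₂] (σ₁ α₁ : Perm D₁) (σ₂ α₂ : Perm D₂) :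
    Def (Perm.sumCongr σ₁ σ₂) (Perm.sumCongr α₁ α₂) = Def σ₁ α₁ + Def σ₂ α₂ := by
  have h : Perm.sumCongr σ₁ σ₂ * Perm.sumCongr α₁ α₂ = Perm.sumCongr (σ₁ * α₁) (σ₂ * α₂) := by
    rw [Perm.sumCongr_mul]
  unfold Def
  rw [h, cyc_sumCongr, cyc_sumCongr, cyc_sumCongr, comp_sumCongr, Nat.card_sum]
  push_cast
  ring

theorem sameCycle_sumCongr_inl {σ₁ : Perm D₁} {σ₂ : Perm D₂} {a b : D₁} :
    (Perm.sumCongr σ₁ σ₂).SameCycle (Sum.inl a) (Sum.inl b) ↔ σ₁.SameCycle a b := by
  constructor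
  · intro h
    have key := eqvGen_le (s := fun x y : D₁ ⊕ D₂ =>
      (∃ u v, x = Sum.inl u ∧ y = Sum.inl v ∧ σ₁.SameCycle u v) ∨
      (∃ u v, x = Sum.inr u ∧ y = Sum.inr v)) ?_ ?_ (eqvGen_Gr_iff.2 h)
    · rcases key with ⟨u, v, h1, h2, h3⟩ | ⟨u, v, h1, h2⟩
      · rw [Sum.inl.inj h1, Sum.inl.inj h2]; exact h3
      · cases h1
    · refine ⟨?_, ?_, ?_⟩
      · rintro (x | x)
        · exact Or.inl ⟨x, x, rfl, rfl, Perm.SameCycle.refl _ _⟩
        · exact Or.inr ⟨x, x, rfl, rfl⟩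
      · rintro x y (⟨u, v, h1, h2, h3⟩ | ⟨u, v, h1, h2⟩)
        · exact Or.inl ⟨v, u, h2, h1, h3.symm⟩
        · exact Or.inr ⟨v, u, h2, h1⟩
      · rintro x y z (⟨u, v, h1, h2, h3⟩ | ⟨u, v, h1, h2⟩) (⟨u', v', h1', h2', h3'⟩ | ⟨u', v', h1', h2'⟩)
        · rw [h2] at h1'
          have := Sum.inl.inj h1'
          subst this
          exact Or.inl ⟨u, v', h1, h2', h3.trans h3'⟩
        · rw [h2] at h1'; cases h1'
        · rw [h2] at h1'; cases h1'
        · exact Or.inr ⟨u, v', h1, h2'⟩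
    · rintro (x | x) y hxy
      · refine Or.inl ⟨x, σ₁ x, rfl, ?_, ?_⟩
        · exact hxy.symm
        · exact Perm.sameCycle_apply_right.2 (Perm.SameCycle.refl _ _)
      · refine Or.inr ⟨x, σ₂ x, rfl, hxy.symm⟩
  · intro h
    refine eqvGen_Gr_iff.1 ?_
    refine eqvGen_le (s := fun x y => EqvGen (Gr (Perm.sumCongr σ₁ σ₂)) (Sum.inl x) (Sum.inl y))
      ?_ ?_ (eqvGen_Gr_iff.2 h)
    · exact ⟨fun _ => EqvGen.refl _, fun h => EqvGen.symm _ _ h, fun h h' => EqvGen.trans _ _ _ h h'⟩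
    · intro x y hxy
      refine EqvGen.rel _ _ ?_
      have : σ₁ x = y := hxy
      subst this
      rfl

theorem sameCycle_sumCongr_inr {σ₁ : Perm D₁} {σ₂ : Perm D₂} {a b : D₂} :
    (Perm.sumCongr σ₁ σ₂).SameCycle (Sum.inr a) (Sum.inr b) ↔ σ₂.SameCycle a b := by
  constructor
  · intro h
    have key := eqvGen_le (s := fun x y : D₁ ⊕ D₂ =>
      (∃ u v, x = Sum.inr u ∧ y = Sum.inr v ∧ σ₂.SameCycle u v) ∨
      (∃ u v, x = Sum.inl u ∧ y = Sum.inl v)) ?_ ?_ (eqvGen_Gr_iff.2 h)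
    · rcases key with ⟨u, v, h1, h2, h3⟩ | ⟨u, v, h1, h2⟩
      · rw [Sum.inr.inj h1, Sum.inr.inj h2]; exact h3
      · cases h1
    · refine ⟨?_, ?_, ?_⟩
      · rintro (x | x)
        · exact Or.inr ⟨x, x, rfl, rfl⟩
        · exact Or.inl ⟨x, x, rfl, rfl, Perm.SameCycle.refl _ _⟩
      · rintro x y (⟨u, v, h1, h2, h3⟩ | ⟨u, v, h1, h2⟩)
        · exact Or.inl ⟨v, u, h2, h1, h3.symm⟩
        · exact Or.inr ⟨v, u, h2, h1⟩
      · rintro x y z (⟨u, v, h1, h2, h3⟩ | ⟨u, v, h1, h2⟩) (⟨u', v', h1', h2', h3'⟩ | ⟨u', v', h1', h2'⟩)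
        · rw [h2] at h1'
          have := Sum.inr.inj h1'
          subst this
          exact Or.inl ⟨u, v', h1, h2', h3.trans h3'⟩
        · rw [h2] at h1'; cases h1'
        · rw [h2] at h1'; cases h1'
        · exact Or.inr ⟨u, v', h1, h2'⟩
    · rintro (x | x) y hxy
      · refine Or.inr ⟨x, σ₁ x, rfl, hxy.symm⟩
      · refine Or.inl ⟨x, σ₂ x, rfl, ?_, ?_⟩
        · exact hxy.symm
        · exact Perm.sameCycle_apply_right.2 (Perm.SameCycle.refl _ _)
  · intro h
    refine eqvGen_Gr_iff.1 ?_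
    refine eqvGen_le (s := fun x y => EqvGen (Gr (Perm.sumCongr σ₁ σ₂)) (Sum.inr x) (Sum.inr y))
      ?_ ?_ (eqvGen_Gr_iff.2 h)
    · exact ⟨fun _ => EqvGen.refl _, fun h => EqvGen.symm _ _ h, fun h h' => EqvGen.trans _ _ _ h h'⟩
    · intro x y hxy
      refine EqvGen.rel _ _ ?_
      have : σ₂ x = y := hxy
      subst this
      rfl

theorem not_conn_sum {σ₁ α₁ : Perm D₁} {σ₂ α₂ : Perm D₂} {a : D₁} {b : D₂} :
    ¬ Conn (Perm.sumCongr σ₁ σ₂) (Perm.sumCongr α₁ α₂) (Sum.inl a) (Sum.inr b) := by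
  intro h
  have key := eqvGen_le (s := fun x y : D₁ ⊕ D₂ => x.isLeft = y.isLeft) ?_ ?_ h
  · simp at key
  · exact ⟨fun _ => rfl, fun h => h.symm, fun h h' => h.trans h'⟩
  · rintro (x | x) y (hxy | hxy) <;> subst hxy <;> rfl

end union

/-- a planar map whose vertices (cycles of `σ`) are labelled injectively by elements of `V` -/
structure LMap (V : Type) where
  D : Type
  [fin : Finite D]
  σ : Perm D
  α : Perm D
  inv : ∀ d, α (α d) = d
  vert : D → V
  same : ∀ a b, vert a = vert b ↔ σ.SameCycle a b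
  planar : Def σ α = 0

attribute [instance] LMap.fin

noncomputable instance LMap.decD {V : Type} (M : LMap V) : DecidableEq M.D := Classical.decEq _

namespace LMap

variable {V V' : Type}

/-- the (directed) edges of the map -/
def E (M : LMap V) (u v : V) : Prop := ∃ d, M.α d ≠ d ∧ M.vert d = u ∧ M.vert (M.α d) = v

theorem E_symm (M : LMap V) {u v : V} (h : M.E u v) : M.E v u := by
  obtain ⟨d, h1, h2, h3⟩ := h
  refine ⟨M.α d, ?_, h3, ?_⟩
  · intro h; rw [M.inv] at h; exact h1 h.symm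
  · rw [M.inv]; exact h2

theorem vert_σ (M : LMap V) (d : M.D) : M.vert (M.σ d) = M.vert d :=
  (M.same _ _).2 (Perm.sameCycle_apply_left.2 (Perm.SameCycle.refl _ _))

/-- the involution `α` restricted to a symmetric set -/
noncomputable def killPerm {D : Type} (α : Perm D) (hinv : ∀ d, α (α d) = d) (P : Set D)
    (hP : ∀ d, d ∈ P → α d ∈ P) : Perm D := by
  classical
  exact ⟨fun d => if d ∈ P then α d else d, fun d => if d ∈ P then α d else d, by
      intro d
      by_cases h : d ∈ P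
      · simp [h, hP d h, hinv]
      · simp [h], by
      intro d
      by_cases h : d ∈ P
      · simp [h, hP d h, hinv]
      · simp [h]⟩

theorem killPerm_mem {D : Type} (α : Perm D) (hinv : ∀ d, α (α d) = d) (P : Set D)
    (hP : ∀ d, d ∈ P → α d ∈ P) {d : D} (h : d ∈ P) : killPerm α hinv P hP d = α d := by
  classical
  change (if d ∈ P then α d else d) = α d
  rw [if_pos h]

theorem killPerm_not {D : Type} (α : Perm D) (hinv : ∀ d, α (α d) = d) (P : Set D)
    (hP : ∀ d, d ∈ P → α d ∈ P) {d : D} (h : d ∉ P) : killPerm α hinv P hP d = d := by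
  classical
  change (if d ∈ P then α d else d) = d
  rw [if_neg h]

theorem killPerm_inv {D : Type} (α : Perm D) (hinv : ∀ d, α (α d) = d) (P : Set D)
    (hP : ∀ d, d ∈ P → α d ∈ P) (d : D) : killPerm α hinv P hP (killPerm α hinv P hP d) = d := by
  by_cases h : d ∈ P
  · rw [killPerm_mem α hinv P hP h, killPerm_mem α hinv P hP (hP d h), hinv]
  · rw [killPerm_not α hinv P hP h, killPerm_not α hinv P hP h]

theorem killPerm_sub {D : Type} (α : Perm D) (hinv : ∀ d, α (α d) = d) (P : Set D)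
    (hP : ∀ d, d ∈ P → α d ∈ P) : Sub (killPerm α hinv P hP) α := by
  intro d
  by_cases h : d ∈ P
  · right; exact killPerm_mem α hinv P hP h
  · left; exact killPerm_not α hinv P hP h

/-- kill the edges outside a symmetric set of darts -/
noncomputable def kill (M : LMap V) (P : Set M.D) (hP : ∀ d, d ∈ P → M.α d ∈ P) : LMap V where
  D := M.D
  σ := M.σ
  α := killPerm M.α M.inv P hP
  inv := killPerm_inv M.α M.inv P hP
  vert := M.vert
  same := M.same
  planar := Def_sub M.inv (killPerm_inv M.α M.inv P hP) (killPerm_sub M.α M.inv P hP) M.planar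

theorem kill_α (M : LMap V) (P : Set M.D) (hP : ∀ d, d ∈ P → M.α d ∈ P) (d : M.D) (h : d ∈ P) :
    (M.kill P hP).α d = M.α d := killPerm_mem M.α M.inv P hP h

theorem kill_α' (M : LMap V) (P : Set M.D) (hP : ∀ d, d ∈ P → M.α d ∈ P) (d : M.D) (h : d ∉ P) :
    (M.kill P hP).α d = d := killPerm_not M.α M.inv P hP h

theorem kill_E (M : LMap V) (P : Set M.D) (hP : ∀ d, d ∈ P → M.α d ∈ P) (u v : V) :
    (M.kill P hP).E u v ↔ ∃ d, d ∈ P ∧ M.α d ≠ d ∧ M.vert d = u ∧ M.vert (M.α d) = v := by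
  constructor
  · rintro ⟨d, h1, h2, h3⟩
    by_cases h : d ∈ P
    · rw [kill_α _ _ _ _ h] at h1 h3
      exact ⟨d, h, h1, h2, h3⟩
    · rw [kill_α' _ _ _ _ h] at h1
      exact absurd rfl h1
  · rintro ⟨d, h, h1, h2, h3⟩
    refine ⟨d, ?_, h2, ?_⟩
    · rw [kill_α _ _ _ _ h]; exact h1
    · rw [kill_α _ _ _ _ h]; exact h3

/-- relabel -/
def relabel (M : LMap V) (q : V → V') (hq : ∀ a b, q (M.vert a) = q (M.vert b) → M.vert a = M.vert b) :
    LMap V' where
  D := M.D
  σ := M.σ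
  α := M.α
  inv := M.inv
  vert := q ∘ M.vert
  same := by
    intro a b
    rw [← M.same]
    exact ⟨hq a b, fun h => congrArg q h⟩
  planar := M.planar

/-- disjoint union -/
def union (M₁ : LMap V) (M₂ : LMap V') : LMap (V ⊕ V') where
  D := M₁.D ⊕ M₂.D
  σ := Perm.sumCongr M₁.σ M₂.σ
  α := Perm.sumCongr M₁.α M₂.α
  inv := by rintro (d | d) <;> simp [M₁.inv, M₂.inv]
  vert := Sum.map M₁.vert M₂.vert
  same := by
    rintro (a | a) (b | b)
    · rw [sameCycle_sumCongr_inl, ← M₁.same]; simp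
    · constructor
      · intro h; simp at h
      · intro h
        exact absurd (Conn.of_sameCycle (α := Perm.sumCongr 1 1) h) not_conn_sum
    · constructor
      · intro h; simp at h
      · intro h
        exact absurd (Conn.of_sameCycle (α := Perm.sumCongr 1 1) h.symm) not_conn_sum
    · rw [sameCycle_sumCongr_inr, ← M₂.same]; simp
  planar := by rw [Def_sumCongr, M₁.planar, M₂.planar]; rfl

/-- merge two vertices (at two corners) -/
noncomputable def merge (M : LMap V) (q : V → V') (a b : M.D) (hne : M.vert a ≠ M.vert b)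
    (hq : ∀ x y, q (M.vert x) = q (M.vert y) ↔ (M.vert x = M.vert y ∨
      ((M.vert x = M.vert a ∨ M.vert x = M.vert b) ∧
        (M.vert y = M.vert a ∨ M.vert y = M.vert b))))
    (h : ¬ Conn M.σ M.α a b ∨ (M.σ * M.α).SameCycle (M.α a) (M.α b)) : LMap V' where
  D := M.D
  σ := M.σ * swap a b
  α := M.α
  inv := M.inv
  vert := q ∘ M.vert
  same := by
    intro x y
    have hs : ¬ M.σ.SameCycle a b := fun h => hne ((M.same _ _).2 h)
    rw [sameCycle_mul_swap_iff hs, Function.comp_apply, Function.comp_apply, hq, M.same, M.same,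
      M.same, M.same, M.same]
  planar := by
    have hs : ¬ M.σ.SameCycle a b := fun h => hne ((M.same _ _).2 h)
    rcases h with h | h
    · rw [Def_merge_comp M.inv h, M.planar]
    · rw [Def_merge_face M.inv hs h, M.planar]

/-- join two dead darts by an edge -/
noncomputable def join (M : LMap V) (a b : M.D) (hab : a ≠ b) (ha : M.α a = a) (hb : M.α b = b)
    (h : ¬ Conn M.σ M.α a b ∨ (M.σ * M.α).SameCycle a b) : LMap V where
  D := M.D
  σ := M.σ
  α := M.α * swap a b
  inv := by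
    intro x
    by_cases hxa : x = a
    · subst hxa
      rw [Perm.mul_apply (M.α) (swap _ _) x, swap_apply_left, hb, Perm.mul_apply,
        swap_apply_right, ha]
    · by_cases hxb : x = b
      · subst hxb
        rw [Perm.mul_apply (M.α) (swap _ _) x, swap_apply_right, ha, Perm.mul_apply,
          swap_apply_left, hb]
      · have hy : (M.α * swap a b) x = M.α x := swap_apply_ne M.α hxa hxb
        have h6 : M.α x ≠ a := fun e => hxa (by rw [← M.inv x, e, ha])
        have h7 : M.α x ≠ b := fun e => hxb (by rw [← M.inv x, e, hb])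
        rw [hy, swap_apply_ne M.α h6 h7, M.inv]
  vert := M.vert
  same := M.same
  planar := by
    rcases h with h | h
    · rw [Def_step_comp ha hb h, M.planar]
    · rw [Def_step_face hab ha hb h, M.planar]

theorem join_E (M : LMap V) (a b : M.D) (hab : a ≠ b) (ha : M.α a = a) (hb : M.α b = b)
    (h : ¬ Conn M.σ M.α a b ∨ (M.σ * M.α).SameCycle a b) (u v : V) :
    (M.join a b hab ha hb h).E u v ↔ M.E u v ∨ (u = M.vert a ∧ v = M.vert b) ∨
      (u = M.vert b ∧ v = M.vert a) := by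
  constructor
  · rintro ⟨d, h1, h2, h3⟩
    change (M.α * swap a b) d ≠ d at h1
    change M.vert d = u at h2
    change M.vert ((M.α * swap a b) d) = v at h3
    by_cases hxa : d = a
    · rw [hxa, Perm.mul_apply, swap_apply_left, hb] at h3
      rw [hxa] at h2
      exact Or.inr (Or.inl ⟨h2.symm, h3.symm⟩)
    · by_cases hxb : d = b
      · rw [hxb, Perm.mul_apply, swap_apply_right, ha] at h3
        rw [hxb] at h2
        exact Or.inr (Or.inr ⟨h2.symm, h3.symm⟩)
      · rw [swap_apply_ne M.α hxa hxb] at h1 h3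
        exact Or.inl ⟨d, h1, h2, h3⟩
  · rintro (⟨d, h1, h2, h3⟩ | ⟨rfl, rfl⟩ | ⟨rfl, rfl⟩)
    · have hda : d ≠ a := fun e => h1 (by rw [e, ha])
      have hdb : d ≠ b := fun e => h1 (by rw [e, hb])
      refine ⟨d, ?_, h2, ?_⟩
      · change (M.α * swap a b) d ≠ d
        rwa [swap_apply_ne M.α hda hdb]
      · change M.vert ((M.α * swap a b) d) = v
        rwa [swap_apply_ne M.α hda hdb]
    · refine ⟨a, ?_, rfl, ?_⟩
      · change (M.α * swap a b) a ≠ a
        rw [Perm.mul_apply, swap_apply_left, hb]; exact hab.symm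
      · change M.vert ((M.α * swap a b) a) = M.vert b
        rw [Perm.mul_apply, swap_apply_left, hb]
    · refine ⟨b, ?_, rfl, ?_⟩
      · change (M.α * swap a b) b ≠ b
        rw [Perm.mul_apply, swap_apply_right, ha]; exact hab
      · change M.vert ((M.α * swap a b) b) = M.vert a
        rw [Perm.mul_apply, swap_apply_right, ha]

/-- `M` draws the graph `G` -/
def Draws (M : LMap V) (G : SimpleGraph V) : Prop :=
  Function.Surjective M.vert ∧ ∀ u v, G.Adj u v ↔ M.E u v

end LMap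

/-- `G` has a planar rotation system (with dead darts) -/
def Drawable {V : Type} (G : SimpleGraph V) : Prop := ∃ M : LMap V, M.Draws G

/-- subgraphs on the same vertices -/
theorem Drawable.mono {V : Type} {G H : SimpleGraph V} (hG : Drawable G) (h : H ≤ G) :
    Drawable H := by
  obtain ⟨M, hs, hE⟩ := hG
  refine ⟨M.kill {d | H.Adj (M.vert d) (M.vert (M.α d))} ?_, hs, ?_⟩
  · intro d hd
    have hd' : H.Adj (M.vert d) (M.vert (M.α d)) := hd
    change H.Adj (M.vert (M.α d)) (M.vert (M.α (M.α d)))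
    rw [M.inv]; exact hd'.symm
  · intro u v
    rw [LMap.kill_E]
    constructor
    · intro huv
      obtain ⟨d, h1, h2, h3⟩ := (hE u v).1 (h huv)
      refine ⟨d, ?_, h1, h2, h3⟩
      change H.Adj (M.vert d) (M.vert (M.α d))
      rw [h2, h3]; exact huv
    · rintro ⟨d, hd, h1, h2, h3⟩
      have hd' : H.Adj (M.vert d) (M.vert (M.α d)) := hd
      rwa [h2, h3] at hd'

end Pool.H96.W
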