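import Pool.Agent.H96.W.FaceL
import Pool.Agent.H96.W.Compress

set_option autoImplicit false

/-! # the main step -/

namespace Pool.H96.W

open Equiv Relation Pool.WG

/-- a vertex of a preconnected induced subgraph with another vertex has a neighbour -/
theorem exists_nb {V : Type} {G : SimpleGraph V} {T : Set V} (hT : (G.induce T).Preconnected)
    {a b : V} (ha : a ∈ T) (hb : b ∈ T) (hab : a ≠ b) : ∃ c ∈ T, G.Adj a c := by
  obtain ⟨w⟩ := hT ⟨a, ha⟩ ⟨b, hb⟩
  cases w with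
  | nil => exact absurd rfl hab
  | cons h _ => exact ⟨_, Subtype.property _, h⟩

theorem pd_lnk : PLnk PD := by
  classical
  intro V _ G x y hxy hcard hC3 hz hPD
  obtain ⟨M, hlive, hME⟩ := PD_live hPD
  have hxy' : x ≠ y := hxy.ne
  have hnoloop : ∀ d, M.α d ≠ d → M.vert (M.α d) ≠ M.vert d := by
    intro d hd h
    have : (ctr G x y).Adj (M.vert d) (M.vert (M.α d)) := (hME _ _).2 ⟨d, hd, rfl, rfl⟩
    exact this.ne h.symm
  -- other vertices
  have hfin : Fintype V := Fintype.ofFinite V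
  have hcardF : 5 ≤ Fintype.card V := by rwa [Nat.card_eq_fintype_card] at hcard
  have hex2 : ∀ a b c : V, ∃ z, z ≠ a ∧ z ≠ b ∧ z ≠ c := by
    intro a b c
    have h1 : ({a, b, c} : Finset V).card < (Finset.univ : Finset V).card := by
      have : ({a, b, c} : Finset V).card ≤ 3 := Finset.card_le_three
      rw [Finset.card_univ]; omega
    obtain ⟨z, -, hz⟩ := Finset.exists_mem_notMem_of_card_lt_card h1
    simp only [Finset.mem_insert, Finset.mem_singleton, not_or] at hz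
    exact ⟨z, hz.1, hz.2.1, hz.2.2⟩
  let T : Set V := ({x, y} : Set V)ᶜ
  have hTmem : ∀ z, z ∈ T ↔ z ≠ x ∧ z ≠ y := by
    intro z
    change ¬ (z ∈ ({x, y} : Set V)) ↔ _
    rw [Set.mem_insert_iff, Set.mem_singleton_iff, not_or]
  have hT : (G.induce T).Preconnected := by
    have := hz x
    have e : ({x, y, x} : Set V) = {x, y} := by
      ext z; simp only [Set.mem_insert_iff, Set.mem_singleton_iff]; tauto
    rwa [e] at this
  -- a neighbour of `x` other than `y`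
  obtain ⟨w₀, hw0y, hw0⟩ : ∃ w, w ≠ y ∧ G.Adj x w := by
    obtain ⟨z, h1, h2, -⟩ := hex2 x y y
    have hS := hC3 {y} (by rw [Set.ncard_singleton]; omega)
    obtain ⟨c, hc, hadj⟩ := exists_nb hS (a := x) (b := z) (by simpa using hxy') (by simpa using h2)
      (Ne.symm h1)
    exact ⟨c, by simpa using hc, hadj⟩
  have hKx : ∀ w, (G.Adj x w ∧ w ≠ y) ∨ (G.Adj y w ∧ w ≠ x) → (ctr G x y).Adj x w := by
    rintro w (⟨h1, h2⟩ | ⟨h1, h2⟩)
    · exact ⟨h1.ne, hxy', h2, Or.inl h1⟩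
    · exact ⟨Ne.symm h2, hxy', h1.ne.symm, Or.inr (Or.inl ⟨rfl, h1⟩)⟩
  obtain ⟨d₁, hd1l, hd1, hd1'⟩ := (hME x w₀).1 (hKx w₀ (Or.inl ⟨hw0, hw0y⟩))
  -- kill the edges at `x`
  have hP : ∀ d, d ∈ {d | M.vert d ≠ x ∧ M.vert (M.α d) ≠ x} →
      M.α d ∈ {d | M.vert d ≠ x ∧ M.vert (M.α d) ≠ x} := by
    intro d hd
    refine ⟨hd.2, ?_⟩
    rw [M.inv]; exact hd.1
  set M₀ : LMap V := M.kill _ hP with hM₀
  have hE0 : ∀ u v, M₀.E u v ↔ (u ∈ T ∧ v ∈ T ∧ G.Adj u v) := by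
    intro u v
    rw [hM₀, LMap.kill_E]
    constructor
    · rintro ⟨d, ⟨h1, h2⟩, h3, h4, h5⟩
      have hadj : (ctr G x y).Adj u v := (hME _ _).2 ⟨d, h3, h4, h5⟩
      rw [h4] at h1
      rw [h5] at h2
      obtain ⟨-, h6, h7, h8⟩ := hadj
      refine ⟨(hTmem _).2 ⟨h1, h6⟩, (hTmem _).2 ⟨h2, h7⟩, ?_⟩
      rcases h8 with h8 | ⟨h8, -⟩ | ⟨h8, -⟩
      · exact h8
      · exact absurd h8 h1
      · exact absurd h8 h2
    · rintro ⟨hu, hv, hadj⟩
      rw [hTmem] at hu hv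
      obtain ⟨d, h3, h4, h5⟩ := (hME u v).1 ⟨hadj.ne, hu.2, hv.2, Or.inl hadj⟩
      refine ⟨d, ⟨?_, ?_⟩, h3, h4, h5⟩
      · rw [h4]; exact hu.1
      · rw [h5]; exact hv.1
  -- the face
  let q : M₀.D := M.α d₁
  have hq : M₀.vert q = w₀ := hd1'
  obtain ⟨N, hNpos, hNper, hNmin⟩ : ∃ N, 0 < N ∧ (M₀.ψ ^ N) q = q ∧
      ∀ i, 0 < i → i < N → (M₀.ψ ^ i) q ≠ q := by
    have hex : ∃ n, 0 < n ∧ (M₀.ψ ^ n) q = q := by
      refine ⟨orderOf M₀.ψ, orderOf_pos _, ?_⟩
      rw [pow_orderOf_eq_one]; rfl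
    refine ⟨Nat.find hex, (Nat.find_spec hex).1, (Nat.find_spec hex).2, ?_⟩
    intro i h1 h2 h3
    exact Nat.find_min hex h2 ⟨h1, h3⟩
  let v : ℕ → V := fun i => M₀.vert ((M₀.ψ ^ i) q)
  let L : ℕ → Prop := fun i => M₀.α (M₀.σ ((M₀.ψ ^ i) q)) ≠ M₀.σ ((M₀.ψ ^ i) q)
  have hstep : ∀ i, (M₀.ψ ^ (i + 1)) q = M₀.α (M₀.σ ((M₀.ψ ^ i) q)) := by
    intro i; rw [pow_succ', Perm.mul_apply]; rfl
  have hper : ∀ i, (M₀.ψ ^ (i + N)) q = (M₀.ψ ^ i) q := by
    intro i; rw [pow_add, Perm.mul_apply, hNper]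
  have hvN : ∀ j, v (j + N) = v j := fun j => congrArg M₀.vert (hper j)
  have hLN : ∀ j, L (j + N) ↔ L j := by
    intro j
    change (M₀.α (M₀.σ ((M₀.ψ ^ (j + N)) q)) ≠ M₀.σ ((M₀.ψ ^ (j + N)) q)) ↔ _
    rw [hper]
  have hdead : ∀ j, ¬ L j → v (j + 1) = v j := by
    intro j hj
    have hj' : M₀.α (M₀.σ ((M₀.ψ ^ j) q)) = M₀.σ ((M₀.ψ ^ j) q) := not_not.1 hj
    change M₀.vert ((M₀.ψ ^ (j + 1)) q) = M₀.vert ((M₀.ψ ^ j) q)
    rw [hstep, hj', M₀.vert_σ]
  have hEl : ∀ j, L j → M₀.E (v j) (v (j + 1)) := by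
    intro j hj
    refine ⟨M₀.σ ((M₀.ψ ^ j) q), hj, M₀.vert_σ _, ?_⟩
    change _ = M₀.vert ((M₀.ψ ^ (j + 1)) q)
    rw [hstep]
  have hvT : ∀ j, v j ∈ T := by
    intro j
    induction j with
    | zero =>
      change M₀.vert ((M₀.ψ ^ 0) q) ∈ T
      rw [pow_zero, Perm.one_apply, hq, hTmem]
      exact ⟨hw0.ne.symm, hw0y⟩
    | succ j ih =>
      by_cases hj : L j
      · exact ((hE0 _ _).1 (hEl j hj)).2.1
      · rw [hdead j hj]; exact ih
  have hexL : ∃ j, L j := by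
    by_contra hno
    push Not at hno
    have hpow : ∀ i, (M₀.ψ ^ i) q = (M₀.σ ^ i) q := by
      intro i
      induction i with
      | zero => rfl
      | succ i ih =>
        have : M₀.α (M₀.σ ((M₀.ψ ^ i) q)) = M₀.σ ((M₀.ψ ^ i) q) := not_not.1 (hno i)
        rw [hstep, this, ih, pow_succ', Perm.mul_apply]
    obtain ⟨z, h1, h2, h3⟩ := hex2 x y w₀
    have hw0T : w₀ ∈ T := (hTmem _).2 ⟨hw0.ne.symm, hw0y⟩
    obtain ⟨c, hcT, hadj⟩ := exists_nb hT hw0T ((hTmem _).2 ⟨h1, h2⟩) (Ne.symm h3)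
    obtain ⟨e, he1, he2, he3⟩ := (hE0 w₀ c).2 ⟨hw0T, hcT, hadj⟩
    have hsc : M₀.σ.SameCycle q (M₀.σ⁻¹ e) := by
      have h4 : M₀.σ.SameCycle q e := (M₀.same _ _).1 (by rw [hq, he2])
      exact Perm.sameCycle_symm_apply_right.2 h4
    obtain ⟨n, hn⟩ := hsc.exists_nat_pow_eq
    have h5 : M₀.σ ((M₀.ψ ^ n) q) = e := by
      rw [hpow, hn]; exact M₀.σ.apply_symm_apply e
    have h6 : M₀.α (M₀.σ ((M₀.ψ ^ n) q)) = M₀.σ ((M₀.ψ ^ n) q) := not_not.1 (hno n)
    rw [h5] at h6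
    exact he1 h6
  have hpowinj : ∀ a b, a < N → b < N → (M₀.ψ ^ a) q = (M₀.ψ ^ b) q → a = b := by
    have key : ∀ a b, a < b → b < N → (M₀.ψ ^ a) q ≠ (M₀.ψ ^ b) q := by
      intro a b hab hb h
      refine hNmin (b - a) (by omega) (by omega) ?_
      have h1 : (M₀.ψ ^ a) ((M₀.ψ ^ (b - a)) q) = (M₀.ψ ^ a) q := by
        rw [← Perm.mul_apply, ← pow_add, show a + (b - a) = b by omega, h]
      exact (M₀.ψ ^ a).injective h1
    intro a b ha hb h
    rcases Nat.lt_trichotomy a b with h1 | h1 | h1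
    · exact absurd h (key a b h1 hb)
    · exact h1
    · exact absurd h.symm (key b a h1 ha)
  have hinj : ∀ a < N, ∀ b < N, L a → L b → v a = v b → a = b := by
    intro a ha b hb hLa hLb hab
    refine hpowinj a b ha hb ?_
    refine face_inj M₀ hab ?_ ?_
    · have h1 : M₀.ψ.SameCycle q ((M₀.ψ ^ a) q) := ⟨a, by rw [zpow_natCast]⟩
      have h2 : M₀.ψ.SameCycle q ((M₀.ψ ^ b) q) := ⟨b, by rw [zpow_natCast]⟩
      exact h1.symm.trans h2
    · intro R hR h1 h2
      have hT' : (G.induce ({x, y, v a} : Set V)ᶜ).Preconnected := hz (v a)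
      have hmem : ∀ z, z ∈ ({x, y, v a} : Set V)ᶜ ↔ z ∈ T ∧ z ≠ v a := by
        intro z
        rw [hTmem]
        change ¬ (z ∈ ({x, y, v a} : Set V)) ↔ _
        simp only [Set.mem_insert_iff, Set.mem_singleton_iff, not_or]
        tauto
      have ea : M₀.vert (M₀.α (M₀.σ ((M₀.ψ ^ a) q))) = v (a + 1) := by
        change _ = M₀.vert ((M₀.ψ ^ (a + 1)) q)
        rw [hstep]
      have eb : M₀.vert (M₀.α (M₀.σ ((M₀.ψ ^ b) q))) = v (b + 1) := by
        change _ = M₀.vert ((M₀.ψ ^ (b + 1)) q)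
        rw [hstep]
      have ha1 : v (a + 1) ∈ ({x, y, v a} : Set V)ᶜ := by
        rw [hmem]
        exact ⟨hvT _, ((hE0 _ _).1 (hEl a hLa)).2.2.ne.symm⟩
      have hb1 : v (b + 1) ∈ ({x, y, v a} : Set V)ᶜ := by
        rw [hmem]
        refine ⟨hvT _, ?_⟩
        rw [hab]
        exact ((hE0 _ _).1 (hEl b hLb)).2.2.ne.symm
      refine lift_conn hT' (fun z => z) ?_ hR ?_ h2 ha1 hb1 ea eb
      · intro s hs t ht hadj
        rw [hmem] at hs ht
        exact (hE0 _ _).2 ⟨hs.1, ht.1, hadj⟩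
      · intro s t u hu hs ht
        rw [hmem] at hu
        refine h1 s t (hs.trans ht.symm) ?_
        rw [hs]
        exact hu.2
  obtain ⟨m, n, hm, hnL, hnmono, hnm, hninj, hnsucc, hrep⟩ :=
    compress N hNpos v L hvN hLN hdead hexL hinj
  -- all neighbours are on the face
  have hnbr : ∀ w, (G.Adj x w ∧ w ≠ y) ∨ (G.Adj y w ∧ w ≠ x) → ∃ j, w = v (n j) := by
    intro w hw
    obtain ⟨d₂, hd2l, hd2, hd2'⟩ := (hME x w).1 (hKx w hw)
    have hwT : w ∈ T := by
      rw [hTmem]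
      rcases hw with ⟨h1, h2⟩ | ⟨h1, h2⟩
      · exact ⟨h1.ne.symm, h2⟩
      · exact ⟨h2, h1.ne.symm⟩
    have hw0T : w₀ ∈ T := (hTmem _).2 ⟨hw0.ne.symm, hw0y⟩
    have hconn : Conn M.σ M₀.α (M.α d₁) (M.α d₂) := by
      refine lift_conn (M := M₀) hT (fun z => z) ?_ (conn_equivalence _ _) ?_
        (fun a => Conn.of_alpha a) hw0T hwT hd1' hd2'
      · intro s hs t ht hadj
        exact (hE0 _ _).2 ⟨hs, ht, hadj⟩
      · intro s t u hu hs ht
        exact Conn.of_sameCycle ((M₀.same _ _).1 (hs.trans ht.symm))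
    have hsf := same_face M x hnoloop hP hd1 hd2 (hlive _) (hlive _) hconn
    obtain ⟨j, hj⟩ := hsf.exists_nat_pow_eq
    have h1 : w = v j := by
      rw [← hd2']
      exact congrArg M₀.vert hj.symm
    obtain ⟨i, hi⟩ := hrep j
    exact ⟨i, h1.trans hi⟩
  refine ⟨m, fun i => v (n i), hm, ?_, hninj, ?_, ?_, ?_, ?_, ?_⟩
  · intro j
    change v (n (j + m)) = v (n j)
    rw [hnm, hvN]
  · intro j
    change G.Adj (v (n j)) (v (n (j + 1)))
    rw [hnsucc]
    exact ((hE0 _ _).1 (hEl _ (hnL j))).2.2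
  · intro j
    exact (hTmem _).1 (hvT _)
  · intro w h1 h2
    exact hnbr w (Or.inl ⟨h1, h2⟩)
  · intro w h1 h2
    exact hnbr w (Or.inr ⟨h1, h2⟩)
  · -- splitting
    intro s k hk hX hY
    let f : V → V ⊕ V := fun z => if z = x ∨ z = y then Sum.inr z else Sum.inl z
    have hf1 : ∀ z ∈ T, f z = Sum.inl z := by
      intro z hz
      rw [hTmem] at hz
      change (if z = x ∨ z = y then _ else _) = _
      rw [if_neg (by tauto)]
    have hfinj : Function.Injective f := by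
      intro a b hab
      by_cases ha : a = x ∨ a = y
      · by_cases hb : b = x ∨ b = y
        · simpa [f, ha, hb] using hab
        · simp [f, ha, hb] at hab
      · by_cases hb : b = x ∨ b = y
        · simp [f, ha, hb] at hab
        · simpa [f, ha, hb] using hab
    let M₁ : LMap (V ⊕ V) := M₀.relabel f (fun a b h => hfinj h)
    have hF : Face M₁ ((M₀.ψ ^ (n s)) q) N (fun i => Sum.inl (v (n s + i))) := by
      refine ⟨hNpos, ?_, ?_, ?_⟩
      · change (M₀.ψ ^ N) ((M₀.ψ ^ (n s)) q) = (M₀.ψ ^ (n s)) q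
        rw [← Perm.mul_apply, ← pow_add, add_comm, hper]
      · intro i h1 h2 h3
        change (M₀.ψ ^ i) ((M₀.ψ ^ (n s)) q) = (M₀.ψ ^ (n s)) q at h3
        rw [← Perm.mul_apply, ← pow_add, add_comm, pow_add, Perm.mul_apply] at h3
        exact hNmin i h1 h2 ((M₀.ψ ^ (n s)).injective h3)
      · intro i _
        change f (M₀.vert ((M₀.ψ ^ i) ((M₀.ψ ^ (n s)) q))) = _
        rw [← Perm.mul_apply, ← pow_add, add_comm]
        exact hf1 _ (hvT _)
    have hnx : ∀ d, M₁.vert d ≠ Sum.inl x := by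
      intro d h
      change f (M₀.vert d) = Sum.inl x at h
      by_cases hd : M₀.vert d = x ∨ M₀.vert d = y
      · simp [f, hd] at h
      · simp only [f, hd, if_false] at h
        exact hd (Or.inl (Sum.inl.inj h))
    have hny : ∀ d, M₁.vert d ≠ Sum.inl y := by
      intro d h
      change f (M₀.vert d) = Sum.inl y at h
      by_cases hd : M₀.vert d = x ∨ M₀.vert d = y
      · simp [f, hd] at h
      · simp only [f, hd, if_false] at h
        exact hd (Or.inr (Sum.inl.inj h))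
    have hle1 : n s ≤ n (s + k) := hnmono.monotone (by omega)
    have hle2 : n (s + k) ≤ n (s + m) := hnmono.monotone (by omega)
    rw [hnm] at hle2
    obtain ⟨M₂, g1, g2, g3, g4⟩ := two_hubs M₁ _ N _ hF (Sum.inl x) (Sum.inl y)
      (fun h => hxy' (Sum.inl.inj h)) hnx hny (n (s + k) - n s) (by omega)
    have hx' : ∀ w, G.Adj x w → w ≠ y → M₂.E (Sum.inl x) (Sum.inl w) := by
      intro w h1 h2
      obtain ⟨j, hj, hw⟩ := hX w h1 h2
      have hle3 : n s ≤ n (s + j) := hnmono.monotone (by omega)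
      have hle4 : n (s + j) ≤ n (s + k) := hnmono.monotone (by omega)
      have := g3 (n (s + j) - n s) (by omega)
      rw [show n s + (n (s + j) - n s) = n (s + j) by omega] at this
      rw [hw]; exact this
    have hy' : ∀ w, G.Adj y w → w ≠ x → M₂.E (Sum.inl y) (Sum.inl w) := by
      intro w h1 h2
      obtain ⟨j, hj, hj', hw⟩ := hY w h1 h2
      have hle3 : n (s + k) ≤ n (s + j) := hnmono.monotone (by omega)
      have hle4 : n (s + j) ≤ n (s + m) := hnmono.monotone (by omega)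
      rw [hnm] at hle4
      have := g4 (n (s + j) - n s) (by omega) (by omega)
      rw [show n s + (n (s + j) - n s) = n (s + j) by omega] at this
      rw [hw]; exact this
    have hall : ∀ a b, G.Adj a b → M₂.E (Sum.inl a) (Sum.inl b) := by
      have h1 : ∀ b, G.Adj x b → M₂.E (Sum.inl x) (Sum.inl b) := by
        intro b hb
        by_cases h : b = y
        · rw [h]; exact g2
        · exact hx' b hb h
      have h2 : ∀ b, G.Adj y b → M₂.E (Sum.inl y) (Sum.inl b) := by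
        intro b hb
        by_cases h : b = x
        · rw [h]; exact M₂.E_symm g2
        · exact hy' b hb h
      intro a b hab
      by_cases hax : a = x
      · rw [hax] at hab ⊢; exact h1 b hab
      by_cases hay : a = y
      · rw [hay] at hab ⊢; exact h2 b hab
      by_cases hbx : b = x
      · rw [hbx] at hab ⊢; exact M₂.E_symm (h1 a hab.symm)
      by_cases hby : b = y
      · rw [hby] at hab ⊢; exact M₂.E_symm (h2 a hab.symm)
      have haT : a ∈ T := (hTmem _).2 ⟨hax, hay⟩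
      have hbT : b ∈ T := (hTmem _).2 ⟨hbx, hby⟩
      obtain ⟨d, h3, h4, h5⟩ := (hE0 a b).2 ⟨haT, hbT, hab⟩
      refine g1 _ _ ⟨d, h3, ?_, ?_⟩
      · change f (M₀.vert d) = _
        rw [h4]; exact hf1 a haT
      · change f (M₀.vert (M₀.α d)) = _
        rw [h5]; exact hf1 b hbT
    have hW : PD (V ⊕ V) (G.map (Function.Embedding.inl : V ↪ V ⊕ V)) := by
      refine PD_of_sup M₂ ?_
      intro u w huw
      rw [SimpleGraph.map_adj] at huw
      obtain ⟨a, b, hab, rfl, rfl⟩ := huw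
      exact hall a b hab
    exact (pd_map V (V ⊕ V) _ G).1 hW

end Pool.H96.W
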