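import Pool.Agent.H96.W.Euler

set_option autoImplicit false

/-! # merging and splitting vertices: multiply `σ` by a transposition -/

namespace Pool.H96.W

open Equiv Relation

variable {D : Type} [DecidableEq D]

theorem face_swap {σ α : Perm D} (hinv : ∀ x, α (α x) = x) (a b : D) :
    σ * swap a b * α = σ * α * swap (α a) (α b) := by
  have h1 : α⁻¹ = α := by
    ext x
    rw [Perm.inv_eq_iff_eq]
    exact (hinv x).symm
  rw [mul_assoc, swap_mul_eq_mul_swap, h1, mul_assoc]

/-- components after merging two different vertices -/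
theorem conn_merge [Finite D] {σ α : Perm D} {a b : D} (h : ¬ σ.SameCycle a b) (x y : D) :
    Conn (σ * swap a b) α x y ↔ EqvGen (addP (Gen σ α) a b) x y := by
  have hab : (σ * swap a b).SameCycle a b := sameCycle_mul_swap h
  constructor
  · intro hxy
    refine eqvGen_le (EqvGen.is_equivalence _) ?_ hxy
    have mono : ∀ {u v : D}, Conn σ α u v → EqvGen (addP (Gen σ α) a b) u v := fun h =>
      eqvGen_mono' (fun _ _ h => EqvGen.rel _ _ (Or.inl h)) h
    have hab' : EqvGen (addP (Gen σ α) a b) a b := EqvGen.rel _ _ (Or.inr ⟨rfl, rfl⟩)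
    rintro u v (huv | huv)
    · rw [Perm.mul_apply] at huv
      by_cases hua : u = a
      · subst hua
        rw [swap_apply_left] at huv
        subst huv
        exact EqvGen.trans _ _ _ hab' (mono (Conn.of_sigma b))
      · by_cases hub : u = b
        · subst hub
          rw [swap_apply_right] at huv
          subst huv
          exact EqvGen.trans _ _ _ (EqvGen.symm _ _ hab') (mono (Conn.of_sigma a))
        · rw [swap_apply_of_ne_of_ne hua hub] at huv
          subst huv
          exact mono (Conn.of_sigma u)
    · exact mono (EqvGen.rel _ _ (Or.inr huv))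
  · intro hxy
    refine eqvGen_le (conn_equivalence _ _) ?_ hxy
    rintro u v ((huv | huv) | ⟨rfl, rfl⟩)
    · refine Conn.of_sameCycle ?_
      rw [sameCycle_mul_swap_iff h]
      left
      rw [← huv]
      exact Perm.sameCycle_apply_right.2 (Perm.SameCycle.refl _ _)
    · subst huv; exact Conn.of_alpha u
    · exact Conn.of_sameCycle hab

theorem comp_merge [Finite D] {σ α : Perm D} {a b : D} (h : ¬ σ.SameCycle a b) :
    comp (σ * swap a b) α = ncl (addP (Gen σ α) a b) := ncl_congr (conn_merge h)

/-- merge two vertices of different components -/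
theorem Def_merge_comp [Finite D] {σ α : Perm D} (hinv : ∀ x, α (α x) = x) {a b : D}
    (h : ¬ Conn σ α a b) : Def (σ * swap a b) α = Def σ α := by
  have hs : ¬ σ.SameCycle a b := fun h' => h (Conn.of_sameCycle h')
  have h1 : cyc σ = cyc (σ * swap a b) + 1 := cyc_mul_swap_of_not hs
  have h2 : cyc (σ * α) = cyc (σ * swap a b * α) + 1 := by
    rw [face_swap hinv]
    refine cyc_mul_swap_of_not fun h' => h ?_
    exact (Conn.of_alpha a).trans ((Conn.of_face h').trans (Conn.of_alpha b).symm)
  have h3 : comp σ α = comp (σ * swap a b) α + 1 := by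
    rw [comp_merge hs]; exact ncl_addP_of_not h
  unfold Def
  rw [h1, h2, h3]
  push_cast
  ring

/-- merge two vertices at corners of one face -/
theorem Def_merge_face [Finite D] {σ α : Perm D} (hinv : ∀ x, α (α x) = x) {a b : D}
    (hs : ¬ σ.SameCycle a b) (h : (σ * α).SameCycle (α a) (α b)) :
    Def (σ * swap a b) α = Def σ α := by
  have hab : a ≠ b := fun e => hs (e ▸ Perm.SameCycle.refl _ _)
  have h1 : cyc σ = cyc (σ * swap a b) + 1 := cyc_mul_swap_of_not hs
  have h2 : cyc (σ * swap a b * α) = cyc (σ * α) + 1 := by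
    rw [face_swap hinv]
    exact cyc_mul_swap_of_same (fun e => hab (α.injective e)) h
  have h3 : comp (σ * swap a b) α = comp σ α := by
    rw [comp_merge hs]
    refine ncl_addP_of_eqv ?_
    exact (Conn.of_alpha a).trans ((Conn.of_face h).trans (Conn.of_alpha b).symm)
  unfold Def
  rw [h1, h2, h3]
  push_cast
  ring

theorem swap_cancel (σ : Perm D) (a b : D) : σ * swap a b * swap a b = σ := by
  rw [mul_assoc, swap_mul_self, mul_one]

/-- split a vertex at two corners of different faces -/
theorem Def_split_face [Finite D] {σ α : Perm D} (hinv : ∀ x, α (α x) = x) {a b : D} (hab : a ≠ b)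
    (hs : σ.SameCycle a b) (h : ¬ (σ * α).SameCycle (α a) (α b)) :
    Def (σ * swap a b) α = Def σ α ∧ Conn (σ * swap a b) α a b := by
  have hs' : ¬ (σ * swap a b).SameCycle a b := not_sameCycle_mul_swap hab hs
  have hf : (σ * swap a b * α).SameCycle (α a) (α b) := by
    rw [face_swap hinv]; exact sameCycle_mul_swap h
  have := Def_merge_face hinv hs' hf
  rw [swap_cancel] at this
  exact ⟨this.symm, (Conn.of_alpha a).trans ((Conn.of_face hf).trans (Conn.of_alpha b).symm)⟩

/-- Jordan: splitting a vertex at two corners of one face of a planar map disconnects -/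
theorem not_conn_split [Finite D] {σ α : Perm D} (hinv : ∀ x, α (α x) = x) {a b : D} (hab : a ≠ b)
    (hs : σ.SameCycle a b) (h : (σ * α).SameCycle (α a) (α b)) (hD : Def σ α = 0) :
    ¬ Conn (σ * swap a b) α a b ∧ Def (σ * swap a b) α = 0 := by
  have hs' : ¬ (σ * swap a b).SameCycle a b := not_sameCycle_mul_swap hab hs
  have h1 : cyc (σ * swap a b) = cyc σ + 1 := cyc_mul_swap_of_same hab hs
  have h2 : cyc (σ * swap a b * α) = cyc (σ * α) + 1 := by
    rw [face_swap hinv]
    exact cyc_mul_swap_of_same (fun e => hab (α.injective e)) h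
  have h4 := Def_nonneg (σ := σ * swap a b) hinv
  have key : ¬ Conn (σ * swap a b) α a b := by
    intro hc
    have h3 : comp σ α = comp (σ * swap a b) α := by
      have := comp_merge (α := α) hs'
      rw [swap_cancel] at this
      rw [this]
      exact ncl_addP_of_eqv hc
    unfold Def at h4 hD
    rw [h1, h2, ← h3] at h4
    push_cast at h4
    omega
  refine ⟨key, ?_⟩
  have := Def_merge_comp hinv key
  rw [swap_cancel] at this
  rw [← this, hD]

end Pool.H96.W
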