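import Pool.Agent.H96.W.Defs

set_option autoImplicit false

namespace Pool.H96.W

open Equiv Relation

variable {D : Type}

theorem quot_eq_iff {r : D → D → Prop} {a b : D} : Quot.mk r a = Quot.mk r b ↔ EqvGen r a b :=
  ⟨Quot.eqvGen_exact, Quot.eqvGen_sound⟩

/-- the number of classes only depends on the generated equivalence -/
theorem ncl_congr {r s : D → D → Prop} (h : ∀ a b, EqvGen r a b ↔ EqvGen s a b) :
    ncl r = ncl s := by
  unfold ncl
  refine Nat.card_congr ?_
  refine ⟨Quot.lift (fun a => Quot.mk s a) ?_, Quot.lift (fun a => Quot.mk r a) ?_, ?_, ?_⟩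
  · intro a b hab
    exact quot_eq_iff.2 ((h a b).1 (EqvGen.rel _ _ hab))
  · intro a b hab
    exact quot_eq_iff.2 ((h a b).2 (EqvGen.rel _ _ hab))
  · rintro ⟨a⟩; rfl
  · rintro ⟨a⟩; rfl

theorem eqvGen_le {r : D → D → Prop} {s : D → D → Prop} (hs : Equivalence s)
    (h : ∀ a b, r a b → s a b) {a b : D} (hab : EqvGen r a b) : s a b := by
  induction hab with
  | rel _ _ h1 => exact h _ _ h1
  | refl _ => exact hs.refl _
  | symm _ _ _ ih => exact hs.symm ih
  | trans _ _ _ _ _ ih1 ih2 => exact hs.trans ih1 ih2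

theorem eqvGen_mono' {r : D → D → Prop} {s : D → D → Prop}
    (h : ∀ a b, r a b → EqvGen s a b) {a b : D} (hab : EqvGen r a b) : EqvGen s a b :=
  eqvGen_le (EqvGen.is_equivalence s) h hab

/-- add one pair to a relation -/
def addP (r : D → D → Prop) (a b : D) : D → D → Prop := fun x y => r x y ∨ (x = a ∧ y = b)

theorem eqvGen_addP {r : D → D → Prop} {a b x y : D} :
    EqvGen (addP r a b) x y ↔ EqvGen r x y ∨
      ((EqvGen r x a ∨ EqvGen r x b) ∧ (EqvGen r y a ∨ EqvGen r y b)) := by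
  constructor
  · intro h
    induction h with
    | rel x y h1 =>
      rcases h1 with h1 | ⟨rfl, rfl⟩
      · exact Or.inl (EqvGen.rel _ _ h1)
      · exact Or.inr ⟨Or.inl (EqvGen.refl _), Or.inr (EqvGen.refl _)⟩
    | refl x => exact Or.inl (EqvGen.refl _)
    | symm x y _ ih =>
      rcases ih with ih | ⟨ih1, ih2⟩
      · exact Or.inl (EqvGen.symm _ _ ih)
      · exact Or.inr ⟨ih2, ih1⟩
    | trans x y z _ _ ih1 ih2 =>
      rcases ih1 with ih1 | ⟨ih1, ih1'⟩
      · rcases ih2 with ih2 | ⟨ih2, ih2'⟩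
        · exact Or.inl (EqvGen.trans _ _ _ ih1 ih2)
        · refine Or.inr ⟨?_, ih2'⟩
          exact ih2.imp (fun h => EqvGen.trans _ _ _ ih1 h) (fun h => EqvGen.trans _ _ _ ih1 h)
      · rcases ih2 with ih2 | ⟨ih2, ih2'⟩
        · refine Or.inr ⟨ih1, ?_⟩
          exact ih1'.imp (fun h => EqvGen.trans _ _ _ (EqvGen.symm _ _ ih2) h)
            (fun h => EqvGen.trans _ _ _ (EqvGen.symm _ _ ih2) h)
        · exact Or.inr ⟨ih1, ih2'⟩
  · have mono : ∀ {u v : D}, EqvGen r u v → EqvGen (addP r a b) u v := fun h =>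
      eqvGen_mono' (fun _ _ h => EqvGen.rel _ _ (Or.inl h)) h
    have hab : EqvGen (addP r a b) a b := EqvGen.rel _ _ (Or.inr ⟨rfl, rfl⟩)
    rintro (h | ⟨h1, h2⟩)
    · exact mono h
    · have k1 : EqvGen (addP r a b) x a := by
        rcases h1 with h1 | h1
        · exact mono h1
        · exact EqvGen.trans _ _ _ (mono h1) (EqvGen.symm _ _ hab)
      have k2 : EqvGen (addP r a b) y a := by
        rcases h2 with h2 | h2
        · exact mono h2
        · exact EqvGen.trans _ _ _ (mono h2) (EqvGen.symm _ _ hab)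
      exact EqvGen.trans _ _ _ k1 (EqvGen.symm _ _ k2)

theorem ncl_addP_of_eqv {r : D → D → Prop} {a b : D} (h : EqvGen r a b) :
    ncl (addP r a b) = ncl r := by
  refine ncl_congr fun x y => ?_
  rw [eqvGen_addP]
  constructor
  · rintro (h1 | ⟨h1, h2⟩)
    · exact h1
    · have k1 : EqvGen r x a := by
        rcases h1 with h1 | h1
        · exact h1
        · exact EqvGen.trans _ _ _ h1 (EqvGen.symm _ _ h)
      have k2 : EqvGen r y a := by
        rcases h2 with h2 | h2
        · exact h2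
        · exact EqvGen.trans _ _ _ h2 (EqvGen.symm _ _ h)
      exact EqvGen.trans _ _ _ k1 (EqvGen.symm _ _ k2)
  · exact Or.inl

theorem ncl_addP_of_not [Finite D] {r : D → D → Prop} {a b : D} (h : ¬ EqvGen r a b) :
    ncl r = ncl (addP r a b) + 1 := by
  classical
  have : Finite (Quot r) := Finite.of_surjective (Quot.mk r) Quot.mk_surjective
  have : Fintype (Quot r) := Fintype.ofFinite _
  have e : Quot (addP r a b) ≃ {q : Quot r // q ≠ Quot.mk r b} := by
    refine ⟨Quot.lift (fun x => if hx : Quot.mk r x = Quot.mk r b then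
        ⟨Quot.mk r a, fun h' => h (quot_eq_iff.1 h')⟩ else ⟨Quot.mk r x, hx⟩) ?_,
      fun q => Quot.lift (fun x => Quot.mk (addP r a b) x) ?_ q.1, ?_, ?_⟩
    · rintro x y (hxy | ⟨rfl, rfl⟩)
      · have : Quot.mk r x = Quot.mk r y := Quot.sound hxy
        simp only [this]
      · have hx : ¬ Quot.mk r x = Quot.mk r y := fun h' => h (quot_eq_iff.1 h')
        simp [hx]
    · intro x y hxy
      exact Quot.sound (Or.inl hxy)
    · rintro ⟨x⟩
      by_cases hx : Quot.mk r x = Quot.mk r b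
      · simp only [hx, dite_true]
        refine quot_eq_iff.2 ?_
        rw [eqvGen_addP]
        exact Or.inr ⟨Or.inl (EqvGen.refl _), Or.inr (quot_eq_iff.1 hx)⟩
      · simp only [hx, dite_false]
    · rintro ⟨⟨x⟩, hx⟩
      have hx' : ¬ Quot.mk r x = Quot.mk r b := hx
      simp only [hx', dite_false]
  have h1 : Nat.card (Quot (addP r a b)) = Nat.card {q : Quot r // q ≠ Quot.mk r b} :=
    Nat.card_congr e
  have h2 : Nat.card {q : Quot r // q ≠ Quot.mk r b} + 1 = Nat.card (Quot r) := by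
    rw [Nat.card_eq_fintype_card, Nat.card_eq_fintype_card]
    have := Fintype.card_subtype_compl (fun q : Quot r => q = Quot.mk r b)
    rw [Fintype.card_subtype_eq] at this
    have hpos : 0 < Fintype.card (Quot r) := Fintype.card_pos_iff.2 ⟨Quot.mk r b⟩
    have h3 : Fintype.card {q : Quot r // q ≠ Quot.mk r b} = Fintype.card (Quot r) - 1 := by
      convert this using 1
    omega
  unfold ncl
  omega

/-- disjoint union of relations -/
theorem ncl_sum {D₁ D₂ : Type} [Finite D₁] [Finite D₂] (r₁ : D₁ → D₁ → Prop)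
    (r₂ : D₂ → D₂ → Prop) : ncl (Sum.LiftRel r₁ r₂) = ncl r₁ + ncl r₂ := by
  have : Finite (Quot r₁) := Finite.of_surjective (Quot.mk r₁) Quot.mk_surjective
  have : Finite (Quot r₂) := Finite.of_surjective (Quot.mk r₂) Quot.mk_surjective
  unfold ncl
  rw [← Nat.card_sum]
  refine Nat.card_congr ?_
  refine ⟨Quot.lift (Sum.elim (fun a => Sum.inl (Quot.mk _ a)) (fun a => Sum.inr (Quot.mk _ a))) ?_,
    Sum.elim (Quot.lift (fun a => Quot.mk _ (Sum.inl a)) ?_)
      (Quot.lift (fun a => Quot.mk _ (Sum.inr a)) ?_), ?_, ?_⟩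
  · rintro _ _ (⟨h⟩ | ⟨h⟩)
    · exact congrArg Sum.inl (Quot.sound h)
    · exact congrArg Sum.inr (Quot.sound h)
  · intro a b h
    exact Quot.sound (Sum.LiftRel.inl h)
  · intro a b h
    exact Quot.sound (Sum.LiftRel.inr h)
  · rintro ⟨a | a⟩ <;> rfl
  · rintro (⟨⟨a⟩⟩ | ⟨⟨a⟩⟩) <;> rfl

end Pool.H96.W
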